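import Mathlib

set_option autoImplicit false

/-! MP_ed98ad_ag, block H: cyclic vectors and the characteristic polynomial; homomorphisms to commuting elements. -/

namespace Pool.Agent.LibMG6

theorem krylov {P : Type} [CommRing P] [IsDomain P] (M : Matrix (Fin 8) (Fin 8) P)
    (hK : (Matrix.of fun i j : Fin 8 => (M ^ (i : ℕ)) 0 j).det ≠ 0) (h : Polynomial P) (hh : Polynomial.aeval M h = 0) :
    M.charpoly ∣ h := by
  have hm := M.charpoly_monic
  rw [← Polynomial.modByMonic_eq_zero_iff_dvd hm]
  set p := h %ₘ M.charpoly with hp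
  have h0 : Polynomial.aeval M p = 0 := by
    have h1 := congrArg (Polynomial.aeval M) (Polynomial.modByMonic_add_div h M.charpoly)
    rw [map_add, map_mul, Matrix.aeval_self_charpoly, zero_mul, add_zero, hh] at h1
    exact h1
  have hd : p.natDegree < 8 := by
    have h1 := Polynomial.natDegree_modByMonic_lt h hm (by
      intro h2
      have h3 := M.charpoly_natDegree_eq_dim
      rw [h2, Polynomial.natDegree_one] at h3
      simp at h3)
    rw [Matrix.charpoly_natDegree_eq_dim, Fintype.card_fin] at h1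
    exact h1
  rw [Polynomial.aeval_eq_sum_range' hd] at h0
  have h1 : Matrix.vecMul (fun i : Fin 8 => p.coeff i) (Matrix.of fun i j : Fin 8 => (M ^ (i : ℕ)) 0 j) = 0 := by
    funext j
    have h2 := congrFun (congrFun h0 0) j
    rw [Matrix.sum_apply] at h2
    rw [Matrix.vecMul, dotProduct, Pi.zero_apply]
    rw [Finset.sum_range (fun i => (p.coeff i • M ^ i) 0 j)] at h2
    exact h2
  have h3 := Matrix.eq_zero_of_vecMul_eq_zero hK h1
  ext n
  rw [Polynomial.coeff_zero]
  by_cases hn : n < 8
  · exact congrFun h3 ⟨n, hn⟩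
  · exact Polynomial.coeff_eq_zero_of_natDegree_lt (by omega)

/-- a homomorphism from a polynomial ring to a noncommutative ring with commuting values -/
theorem exists_hom {k A σ : Type} [CommRing k] [Ring A] [Algebra k A] (v : σ → A) (hv : ∀ i j, v i * v j = v j * v i) :
    ∃ ρ : MvPolynomial σ k →ₐ[k] A, ∀ i, ρ (MvPolynomial.X i) = v i := by
  have hc : ∀ a ∈ Set.range v, ∀ b ∈ Set.range v, a * b = b * a := by
    rintro _ ⟨i, rfl⟩ _ ⟨j, rfl⟩
    exact hv i j
  letI : CommRing (Algebra.adjoin k (Set.range v)) := Algebra.adjoinCommRingOfComm k hc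
  let f : MvPolynomial σ k →ₐ[k] Algebra.adjoin k (Set.range v) :=
    MvPolynomial.aeval fun i => ⟨v i, Algebra.subset_adjoin ⟨i, rfl⟩⟩
  refine ⟨(Algebra.adjoin k (Set.range v)).val.comp f, fun i => ?_⟩
  rw [AlgHom.comp_apply, MvPolynomial.aeval_X]
  rfl

end Pool.Agent.LibMG6
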