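import Pool.Agent.LibMX34.RDefs2

set_option autoImplicit false

/-! MP_ed98ad_ag (Mond's conjecture is false), block H (helper6): definitions. -/

namespace Pool.Agent.LibMG6

open Pool.Agent.LibMX34

section general

variable {R S : Type} [CommRing R] [CommRing S]

/-- the basis `1, z, y, yz, x, xz, xy, xyz` -/
def bs (x y z : R) : Fin 8 → R := ![1, z, y, y * z, x, x * z, x * y, x * y * z]

/-- the functions `Y_1, .., Y_4` -/
def qd (v : Fin 9 → R) (x y z : R) : Fin 4 → R :=
  ![x ^ 2 + v 0 * y + v 1 * z, y ^ 2 + x * z + v 2 * x + v 3 * z, z ^ 2 + x * y + v 4 * x + v 5 * y,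
    y * z + v 6 * x + v 7 * y + v 8 * z]

/-- the determinant `det (Y_4 - M4)` -/
def GR (v : Fin 9 → R) (Y : Fin 4 → R) : R :=
  (Matrix.scalar (Fin 8) (Y 3) - M4 v (fun j : Fin 3 => Y j.castSucc)).det

end general

end Pool.Agent.LibMG6
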