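import Pool.Agent.LibMG6.C0

set_option autoImplicit false

/-! MP_ed98ad_ag (Mond's conjecture is false), block H (helper6): the matrices act on the basis; the image equation in any ring. -/

namespace Pool.Agent.LibMG6

open Pool.Agent.LibMX34

section general

variable {R S : Type} [CommRing R] [CommRing S]

theorem MX_bs (v : Fin 9 → R) (x y z : R) (Y : Fin 3 → R) (h0 : Y 0 = qd v x y z 0) (h1 : Y 1 = qd v x y z 1)
    (h2 : Y 2 = qd v x y z 2) : (MX v Y).mulVec (bs x y z) = x • bs x y z := by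
  have e0 : Y 0 = x ^ 2 + v 0 * y + v 1 * z := h0
  have e1 : Y 1 = y ^ 2 + x * z + v 2 * x + v 3 * z := h1
  have e2 : Y 2 = z ^ 2 + x * y + v 4 * x + v 5 * y := h2
  funext i
  fin_cases i <;> simp [MX, bs, Matrix.mulVec, dotProduct, Fin.sum_univ_succ, e0, e1, e2] <;> ring

theorem MY_bs (v : Fin 9 → R) (x y z : R) (Y : Fin 3 → R) (h0 : Y 0 = qd v x y z 0) (h1 : Y 1 = qd v x y z 1)
    (h2 : Y 2 = qd v x y z 2) : (MY v Y).mulVec (bs x y z) = y • bs x y z := by
  have e0 : Y 0 = x ^ 2 + v 0 * y + v 1 * z := h0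
  have e1 : Y 1 = y ^ 2 + x * z + v 2 * x + v 3 * z := h1
  have e2 : Y 2 = z ^ 2 + x * y + v 4 * x + v 5 * y := h2
  funext i
  fin_cases i <;> simp [MY, bs, Matrix.mulVec, dotProduct, Fin.sum_univ_succ, e0, e1, e2] <;> ring

theorem MZ_bs (v : Fin 9 → R) (x y z : R) (Y : Fin 3 → R) (h0 : Y 0 = qd v x y z 0) (h1 : Y 1 = qd v x y z 1)
    (h2 : Y 2 = qd v x y z 2) : (MZ v Y).mulVec (bs x y z) = z • bs x y z := by
  have e0 : Y 0 = x ^ 2 + v 0 * y + v 1 * z := h0
  have e1 : Y 1 = y ^ 2 + x * z + v 2 * x + v 3 * z := h1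
  have e2 : Y 2 = z ^ 2 + x * y + v 4 * x + v 5 * y := h2
  funext i
  fin_cases i <;> simp [MZ, bs, Matrix.mulVec, dotProduct, Fin.sum_univ_succ, e0, e1, e2] <;> ring

theorem M4_bs (v : Fin 9 → R) (x y z : R) (Y : Fin 3 → R) (h0 : Y 0 = qd v x y z 0) (h1 : Y 1 = qd v x y z 1)
    (h2 : Y 2 = qd v x y z 2) : (M4 v Y).mulVec (bs x y z) = qd v x y z 3 • bs x y z := by
  have hX := MX_bs v x y z Y h0 h1 h2
  have hY := MY_bs v x y z Y h0 h1 h2
  have hZ := MZ_bs v x y z Y h0 h1 h2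
  have e3 : qd v x y z 3 = y * z + v 6 * x + v 7 * y + v 8 * z := rfl
  rw [e3, M4]
  simp only [Matrix.add_mulVec, Matrix.smul_mulVec, ← Matrix.mulVec_mulVec, hX, hY, hZ, Matrix.mulVec_smul]
  simp only [smul_smul, ← add_smul]
  congr 1
  ring

/-- the image equation in any ring -/
theorem GR_qd (v : Fin 9 → R) (x y z : R) : GR v (qd v x y z) = 0 := by
  rw [GR]
  set N := Matrix.scalar (Fin 8) (qd v x y z 3) - M4 v (fun j : Fin 3 => qd v x y z j.castSucc) with hN
  have h : N.mulVec (bs x y z) = 0 := by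
    rw [hN, Matrix.sub_mulVec, M4_bs v x y z _ rfl rfl rfl, Matrix.scalar_apply]
    funext i
    simp
  have h' : N.adjugate.mulVec (N.mulVec (bs x y z)) = 0 := by rw [h, Matrix.mulVec_zero]
  rw [Matrix.mulVec_mulVec, Matrix.adjugate_mul, Matrix.smul_mulVec, Matrix.one_mulVec] at h'
  have := congrFun h' 0
  simpa [bs] using this

end general

end Pool.Agent.LibMG6
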