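import Pool.Agent.LibMG6.C9
import Pool.Agent.LibMX34.Flag

set_option autoImplicit false

/-! MP_ed98ad_ag, block H (helper6): the Krylov determinant of the example is not zero (value at the integer point
`Y = (1, 1, 0), u = (0, 0, 0, 0, 0, 1)`). -/

namespace Pool.Agent.LibMG6

open Pool.Agent.LibMX34

/-- the point `(Y_1, Y_2, Y_3, u_1, .., u_6)` -/
def pt : Fin (6 + 3) → ℤ := ![1, 1, 0, 0, 0, 0, 0, 0, 1]

/-- the values of `v_t` -/
def vZ : Fin 9 → ℤ := ![0, 0, 0, 0, 0, 0, 0, 0, 1]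

/-- the values of `Y_j` -/
def yZ : Fin 3 → ℤ := ![1, 1, 0]

/-- the matrix `M4` at the point -/
def mZ : Matrix (Fin 8) (Fin 8) ℤ :=
  !![0, 1, 0, 1, 0, 0, 0, 0;
    0, 1, 0, 0, -1, 0, -1, 0;
    0, 1, 1, 1, 0, 0, 0, 0;
    0, 1, 0, 1, -1, 0, -1, 0;
    0, 0, 0, 0, 0, 1, 0, 1;
    -1, 0, -1, 0, 0, 1, 0, 0;
    0, 0, 0, 0, 0, 1, 1, 1;
    -1, 0, -1, 0, 0, 1, 0, 1]

/-- the Krylov matrix at the point -/
def kZ : Matrix (Fin 8) (Fin 8) ℤ :=
  !![1, 0, 0, 0, 0, 0, 0, 0;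
    0, 1, 0, 1, 0, 0, 0, 0;
    0, 2, 0, 1, -2, 0, -2, 0;
    0, 3, 0, 1, -3, -4, -5, -4;
    8, 4, 8, 1, -4, -16, -9, -12;
    28, 21, 36, 17, -5, -41, -14, -25;
    66, 102, 102, 81, -38, -85, -52, -44;
    129, 351, 231, 249, -183, -219, -235, -134]

/-- its inverse -/
def iZ : Matrix (Fin 8) (Fin 8) ℤ :=
  !![1, 0, 0, 0, 0, 0, 0, 0;
    64, -383, 705, -254, -444, 392, -176, 32;
    1, -8, 15, -11, -10, 10, -5, 1;
    -64, 384, -705, 254, 444, -392, 176, -32;
    -16, 129, -303, 163, 183, -176, 84, -16;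
    8, -48, 105, -62, -66, 64, -31, 6;
    48, -320, 655, -290, -405, 372, -172, 32;
    -24, 160, -344, 175, 213, -201, 95, -18]

theorem M4_pt : ∀ i j, M4 vZ yZ i j = mZ i j := by
  decide +kernel

theorem k_zero : ∀ j, kZ 0 j = if j = 0 then 1 else 0 := by
  decide +kernel

theorem k_succ : ∀ (i : Fin 7) (j : Fin 8), kZ i.succ j = ∑ l, kZ i.castSucc l * mZ l j := by
  decide +kernel

theorem k_inv : ∀ i j, (∑ l, kZ i l * iZ l j) = if i = j then 1 else 0 := by
  decide +kernel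

theorem v_pt : ∀ t, vZ t = ∑ a : Fin 6, TA t a * pt a.succ.succ.succ := by
  decide +kernel

theorem y_pt : ∀ j : Fin 3, yZ j = pt (Fin.castLE (by omega) j) := by
  decide +kernel

theorem kZ_det : kZ.det ≠ 0 := by
  have h : kZ * iZ = 1 := by
    ext i j
    rw [Matrix.mul_apply, k_inv, Matrix.one_apply]
  intro h0
  have h1 := congrArg Matrix.det h
  rw [Matrix.det_mul, h0, zero_mul, Matrix.det_one] at h1
  exact zero_ne_one h1

theorem pow_row (i : ℕ) (hi : i < 8) (j : Fin 8) : (mZ ^ i) 0 j = kZ ⟨i, hi⟩ j := by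
  induction i generalizing j with
  | zero =>
    rw [pow_zero, Matrix.one_apply]
    have := k_zero j
    rw [show (⟨0, hi⟩ : Fin 8) = 0 from rfl, this]
    by_cases hj : j = 0
    · rw [if_pos hj, if_pos hj.symm]
    · rw [if_neg hj, if_neg fun h => hj h.symm]
  | succ i ih =>
    rw [pow_succ, Matrix.mul_apply]
    have h7 : i < 7 := by omega
    have := k_succ ⟨i, h7⟩ j
    rw [show (⟨i + 1, hi⟩ : Fin 8) = (⟨i, h7⟩ : Fin 7).succ from rfl, this]
    refine Finset.sum_congr rfl fun l _ => ?_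
    rw [ih (by omega)]
    rfl

variable (k : Type) [Field k]

/-- evaluation at the point -/
noncomputable def evp : MvPolynomial (Fin (6 + 3)) k →+* k := MvPolynomial.eval fun i => (pt i : k)

theorem evp_l (t : Fin 9) : evp k (lvP k TA t) = (vZ t : k) := by
  rw [lvP, map_sum, v_pt, Int.cast_sum]
  refine Finset.sum_congr rfl fun a _ => ?_
  rw [map_mul, map_intCast, Int.cast_mul, evp, MvPolynomial.eval_X]

theorem evp_y (j : Fin 3) : evp k (yQ k 6 j) = (yZ j : k) := by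
  rw [yQ, evp, MvPolynomial.eval_X, y_pt]

theorem evp_M : (MQ k TA).map (evp k) = mZ.map (Int.castRingHom k) := by
  have h1 : (fun t => evp k (lvP k TA t)) = fun t => Int.castRingHom k (vZ t) := funext fun t => evp_l k t
  have h2 : (fun j => evp k (yQ k 6 j)) = fun j => Int.castRingHom k (yZ j) := funext fun j => evp_y k j
  rw [MQ, map_M4, h1, h2, ← map_M4]
  congr 1
  ext i j
  exact M4_pt i j

theorem kQ_ne [CharZero k] : (kQ k TA).det ≠ 0 := by
  intro h0
  have h1 := congrArg (evp k) h0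
  rw [map_zero, RingHom.map_det] at h1
  have h2 : (evp k).mapMatrix (kQ k TA) = (Int.castRingHom k).mapMatrix kZ := by
    ext i j
    rw [RingHom.mapMatrix_apply, RingHom.mapMatrix_apply, Matrix.map_apply, Matrix.map_apply]
    have h3 : kQ k TA i j = (MQ k TA ^ (i : ℕ)) 0 j := rfl
    have h4 : evp k ((MQ k TA ^ (i : ℕ)) 0 j) = ((evp k).mapMatrix (MQ k TA ^ (i : ℕ))) 0 j := rfl
    have h5 : (evp k).mapMatrix (MQ k TA) = (Int.castRingHom k).mapMatrix mZ := evp_M k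
    rw [h3, h4, map_pow, h5, ← map_pow, RingHom.mapMatrix_apply, Matrix.map_apply, pow_row i i.2 j]
  rw [h2, ← RingHom.map_det] at h1
  exact kZ_det (Int.cast_eq_zero.1 h1)

end Pool.Agent.LibMG6
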