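import Pool.Agent.LibMG6.C10
import Pool.Agent.LibMG10.G6

set_option autoImplicit false

/-! MP_ed98ad_ag, block H (helper6, helper10): the hypotheses `Geo` for the example. -/

namespace Pool.Agent.LibMG6

open Pool.Agent.LibMX34

theorem FG_S (k : Type) [Field k] {r : ℕ} (T : Fin 9 → Fin r → ℤ) (σ : Fin 9 → ℤ) :
    MvPowerSeries.subst (unf (PowerSeries k) (PhiS k T σ)) (GS k T σ) = 0 := by
  rw [GS, sub_aeval, FUs_GG, map_zero]

theorem geo_of (k : Type) [Field k] [CharZero k] {r : ℕ} (T : Fin 9 → Fin r → ℤ) (σ : Fin 9 → ℤ) (hK : (kQ k T).det ≠ 0) :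
    Geo k (PhiS k T σ) (GS k T σ) where
  const := phi_const k T σ
  regA := Pool.Agent.LibMG10.regA_PhiS k T σ
  reg0 := Pool.Agent.LibMG10.reg0_PhiS k T σ
  FG := FG_S k T σ
  ker0 := fun h hh => ker0_S k T σ hK h hh
  reduced := reduced_S k T σ
  euler := euler_S k T σ

theorem geo_A (k : Type) [Field k] [CharZero k] : Geo k (PhiS k TA sA) (GS k TA sA) := geo_of k TA sA (kQ_ne k)

end Pool.Agent.LibMG6
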