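import Pool.Agent.LibMG6.C5
import Pool.Agent.LibMX34.RH

set_option autoImplicit false

/-! MP_ed98ad_ag, block H (helper6): the Euler identity of the universal image equation. -/

namespace Pool.Agent.LibMG6

open Pool.Agent.LibMX34

/-- the Euler field as a map -/
noncomputable def EZ (a : MvPolynomial (Fin 13) ℤ) : MvPolynomial (Fin 13) ℤ := ∑ t, EU t * MvPolynomial.pderiv t a

theorem EZ_add (a b : MvPolynomial (Fin 13) ℤ) : EZ (a + b) = EZ a + EZ b := by
  rw [EZ, EZ, EZ, ← Finset.sum_add_distrib]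
  refine Finset.sum_congr rfl fun t _ => ?_
  rw [map_add, mul_add]

theorem EZ_mul (a b : MvPolynomial (Fin 13) ℤ) : EZ (a * b) = EZ a * b + a * EZ b := by
  rw [EZ, EZ, EZ, Finset.mul_sum, Finset.sum_mul, ← Finset.sum_add_distrib]
  refine Finset.sum_congr rfl fun t _ => ?_
  rw [Derivation.leibniz, smul_eq_mul, smul_eq_mul]
  ring

theorem EZ_X (i : Fin 13) : EZ (MvPolynomial.X i) = EU i := by
  classical
  rw [EZ, Finset.sum_eq_single i]
  · rw [MvPolynomial.pderiv_X_self, mul_one]
  · intro t _ ht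
    rw [MvPolynomial.pderiv_X_of_ne ht.symm, mul_zero]
  · intro h
    exact absurd (Finset.mem_univ i) h

theorem EZ_zero : EZ 0 = 0 := by
  rw [EZ]
  refine Finset.sum_eq_zero fun t _ => ?_
  rw [map_zero, mul_zero]

theorem EZ_one : EZ 1 = 0 := by
  rw [EZ]
  refine Finset.sum_eq_zero fun t _ => ?_
  rw [Derivation.map_one_eq_zero, mul_zero]

theorem hE : ∑ t, EU t * MvPolynomial.pderiv t GG = 16 * GG := by
  have h : EZ GG = 16 * GG := by
    rw [GG_eq]
    refine euler_GR EZ EZ_one EZ_zero EZ_add EZ_mul _ _ ?_ ?_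
    · intro t
      rw [EZ_X, EU]
      have : ¬ (((Fin.natAdd 4 t : Fin 13) : ℕ) < 4) := by simp
      rw [if_neg this, map_one, one_mul]
    · intro j
      rw [EZ_X, EU]
      have : (((Fin.castLE (by omega) j : Fin 13) : ℕ) < 4) := j.2
      rw [if_pos this, map_ofNat]
  exact h

end Pool.Agent.LibMG6
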