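import Pool.Agent.LibMG6.C0

set_option autoImplicit false

/-! MP_ed98ad_ag (Mond's conjecture is false), block H (helper6): functoriality of the matrices. -/

namespace Pool.Agent.LibMG6

open Pool.Agent.LibMX34

section general

variable {R S : Type} [CommRing R] [CommRing S]

theorem map_qd (φ : R →+* S) (v : Fin 9 → R) (x y z : R) (j : Fin 4) :
    φ (qd v x y z j) = qd (fun t => φ (v t)) (φ x) (φ y) (φ z) j := by
  fin_cases j <;> simp [qd]

theorem map_MX (φ : R →+* S) (v : Fin 9 → R) (Y : Fin 3 → R) : (MX v Y).map φ = MX (fun t => φ (v t)) (fun j => φ (Y j)) := by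
  ext i j
  fin_cases i <;> fin_cases j <;> simp [MX, map_ofNat]

theorem map_MY (φ : R →+* S) (v : Fin 9 → R) (Y : Fin 3 → R) : (MY v Y).map φ = MY (fun t => φ (v t)) (fun j => φ (Y j)) := by
  ext i j
  fin_cases i <;> fin_cases j <;> simp [MY, map_ofNat]

theorem map_MZ (φ : R →+* S) (v : Fin 9 → R) (Y : Fin 3 → R) : (MZ v Y).map φ = MZ (fun t => φ (v t)) (fun j => φ (Y j)) := by
  ext i j
  fin_cases i <;> fin_cases j <;> simp [MZ, map_ofNat]

theorem map_M4 (φ : R →+* S) (v : Fin 9 → R) (Y : Fin 3 → R) : (M4 v Y).map φ = M4 (fun t => φ (v t)) (fun j => φ (Y j)) := by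
  have hs : ∀ (a : R) (N : Matrix (Fin 8) (Fin 8) R), (a • N).map φ = φ a • N.map φ := by
    intro a N
    ext i j
    simp
  have ha : ∀ (M N : Matrix (Fin 8) (Fin 8) R), (M + N).map φ = M.map φ + N.map φ := by
    intro M N
    ext i j
    simp
  rw [M4, M4]
  simp only [ha, hs, Matrix.map_mul, map_MX, map_MY, map_MZ]

theorem map_GR (φ : R →+* S) (v : Fin 9 → R) (Y : Fin 4 → R) : φ (GR v Y) = GR (fun t => φ (v t)) (fun j => φ (Y j)) := by
  have h : φ.mapMatrix (Matrix.scalar (Fin 8) (Y 3) - M4 v (fun j : Fin 3 => Y j.castSucc)) =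
      Matrix.scalar (Fin 8) (φ (Y 3)) - M4 (fun t => φ (v t)) (fun j : Fin 3 => φ (Y j.castSucc)) := by
    rw [map_sub, RingHom.mapMatrix_apply, RingHom.mapMatrix_apply, map_M4]
    congr 1
    ext i j
    simp only [Matrix.scalar_apply, Matrix.map_apply, Matrix.diagonal_apply]
    split_ifs <;> simp
  rw [GR, GR, RingHom.map_det, h]

end general

end Pool.Agent.LibMG6
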