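import Pool.Agent.LibMX34.RDefs

set_option autoImplicit false

/-! MP_ed98ad_ag, block H (helper6): the matrices commute. -/

namespace Pool.Agent.LibMG6

open Pool.Agent.LibMX34

variable {R : Type} [CommRing R]

theorem cXY (v : Fin 9 → R) (Y : Fin 3 → R) : MX v Y * MY v Y = MY v Y * MX v Y := by
  ext i j
  fin_cases i <;> fin_cases j <;> simp [MX, MY, Matrix.mul_apply, Fin.sum_univ_succ] <;> ring

end Pool.Agent.LibMG6
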