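import Pool.Agent.LibMG6.C2
import Pool.Agent.LibMG6.C2b
import Pool.Agent.LibMG6.C2c

set_option autoImplicit false

/-! MP_ed98ad_ag, block H (helper6): the matrices satisfy the relations. -/

namespace Pool.Agent.LibMG6

open Pool.Agent.LibMX34

variable {R : Type} [CommRing R]

theorem mulr0 {A B : Matrix (Fin 8) (Fin 8) R} {i : Fin 8} (h : A 0 = Pi.single i 1) : (A * B) 0 = B i := by
  funext j
  rw [Matrix.mul_apply, Finset.sum_eq_single i]
  · rw [h, Pi.single_eq_same, one_mul]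
  · intro k _ hk
    rw [h, Pi.single_eq_of_ne hk, zero_mul]
  · intro h'
    exact absurd (Finset.mem_univ i) h'

theorem rX (v : Fin 9 → R) (Y : Fin 3 → R) : MX v Y 0 = Pi.single 4 1 := by
  funext j
  fin_cases j <;> simp [MX]

theorem rY (v : Fin 9 → R) (Y : Fin 3 → R) : MY v Y 0 = Pi.single 2 1 := by
  funext j
  fin_cases j <;> simp [MY]

theorem rZ (v : Fin 9 → R) (Y : Fin 3 → R) : MZ v Y 0 = Pi.single 1 1 := by
  funext j
  fin_cases j <;> simp [MZ]

theorem rYZ (v : Fin 9 → R) (Y : Fin 3 → R) : (MY v Y * MZ v Y) 0 = Pi.single 3 1 := by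
  rw [mulr0 (rY v Y)]
  funext j
  fin_cases j <;> simp [MZ]

theorem rXZ (v : Fin 9 → R) (Y : Fin 3 → R) : (MX v Y * MZ v Y) 0 = Pi.single 5 1 := by
  rw [mulr0 (rX v Y)]
  funext j
  fin_cases j <;> simp [MZ]

theorem rXY (v : Fin 9 → R) (Y : Fin 3 → R) : (MX v Y * MY v Y) 0 = Pi.single 6 1 := by
  rw [mulr0 (rX v Y)]
  funext j
  fin_cases j <;> simp [MY]

theorem rXYZ (v : Fin 9 → R) (Y : Fin 3 → R) : (MX v Y * MY v Y * MZ v Y) 0 = Pi.single 7 1 := by
  rw [mulr0 (rXY v Y)]
  funext j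
  fin_cases j <;> simp [MZ]

/-- a matrix commuting with `X, Y, Z` is determined by its row 0 -/
theorem eq_of_r0 (v : Fin 9 → R) (Y : Fin 3 → R) (N N' : Matrix (Fin 8) (Fin 8) R)
    (hX : Commute (MX v Y) N) (hY : Commute (MY v Y) N) (hZ : Commute (MZ v Y) N)
    (hX' : Commute (MX v Y) N') (hY' : Commute (MY v Y) N') (hZ' : Commute (MZ v Y) N') (h0 : N 0 = N' 0) : N = N' := by
  have key : ∀ (B : Matrix (Fin 8) (Fin 8) R) (i : Fin 8), B 0 = Pi.single i 1 → Commute B N → Commute B N' → N i = N' i := by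
    intro B i hB hN hN'
    rw [← mulr0 (B := N) hB, ← mulr0 (B := N') hB, hN.eq, hN'.eq]
    funext j
    rw [Matrix.mul_apply, Matrix.mul_apply, h0]
  have h : ∀ i, N i = N' i := by
    intro i
    fin_cases i
    · exact h0
    · exact key _ 1 (rZ v Y) hZ hZ'
    · exact key _ 2 (rY v Y) hY hY'
    · exact key _ 3 (rYZ v Y) (hY.mul_left hZ) (hY'.mul_left hZ')
    · exact key _ 4 (rX v Y) hX hX'
    · exact key _ 5 (rXZ v Y) (hX.mul_left hZ) (hX'.mul_left hZ')
    · exact key _ 6 (rXY v Y) (hX.mul_left hY) (hX'.mul_left hY')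
    · exact key _ 7 (rXYZ v Y) ((hX.mul_left hY).mul_left hZ) ((hX'.mul_left hY').mul_left hZ')
  exact funext h

theorem relX (v : Fin 9 → R) (Y : Fin 3 → R) :
    MX v Y * MX v Y + v 0 • MY v Y + v 1 • MZ v Y = Y 0 • (1 : Matrix (Fin 8) (Fin 8) R) := by
  have hXY : Commute (MX v Y) (MY v Y) := cXY v Y
  have hXZ : Commute (MX v Y) (MZ v Y) := cXZ v Y
  have hYZ : Commute (MY v Y) (MZ v Y) := cYZ v Y
  refine eq_of_r0 v Y _ _ ?_ ?_ ?_ ?_ ?_ ?_ ?_
  · exact (((Commute.refl _).mul_right (Commute.refl _)).add_right (hXY.smul_right _)).add_right (hXZ.smul_right _)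
  · exact ((hXY.symm.mul_right hXY.symm).add_right ((Commute.refl _).smul_right _)).add_right (hYZ.smul_right _)
  · exact ((hXZ.symm.mul_right hXZ.symm).add_right (hYZ.symm.smul_right _)).add_right ((Commute.refl _).smul_right _)
  · exact (Commute.one_right _).smul_right _
  · exact (Commute.one_right _).smul_right _
  · exact (Commute.one_right _).smul_right _
  · funext j
    have h1 : (MX v Y * MX v Y) 0 j = MX v Y 4 j := congrFun (mulr0 (rX v Y)) j
    rw [Matrix.add_apply, Matrix.add_apply, h1]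
    fin_cases j <;> simp [MX, MY, MZ]

theorem relY (v : Fin 9 → R) (Y : Fin 3 → R) :
    MY v Y * MY v Y + MX v Y * MZ v Y + v 2 • MX v Y + v 3 • MZ v Y = Y 1 • (1 : Matrix (Fin 8) (Fin 8) R) := by
  have hXY : Commute (MX v Y) (MY v Y) := cXY v Y
  have hXZ : Commute (MX v Y) (MZ v Y) := cXZ v Y
  have hYZ : Commute (MY v Y) (MZ v Y) := cYZ v Y
  refine eq_of_r0 v Y _ _ ?_ ?_ ?_ ?_ ?_ ?_ ?_
  · exact (((hXY.mul_right hXY).add_right ((Commute.refl _).mul_right hXZ)).add_right
      ((Commute.refl _).smul_right _)).add_right (hXZ.smul_right _)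
  · exact ((((Commute.refl _).mul_right (Commute.refl _)).add_right (hXY.symm.mul_right hYZ)).add_right
      (hXY.symm.smul_right _)).add_right (hYZ.smul_right _)
  · exact (((hYZ.symm.mul_right hYZ.symm).add_right (hXZ.symm.mul_right (Commute.refl _))).add_right
      (hXZ.symm.smul_right _)).add_right ((Commute.refl _).smul_right _)
  · exact (Commute.one_right _).smul_right _
  · exact (Commute.one_right _).smul_right _
  · exact (Commute.one_right _).smul_right _
  · funext j
    have h1 : (MY v Y * MY v Y) 0 j = MY v Y 2 j := congrFun (mulr0 (rY v Y)) j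
    have h2 : (MX v Y * MZ v Y) 0 j = MZ v Y 4 j := congrFun (mulr0 (rX v Y)) j
    rw [Matrix.add_apply, Matrix.add_apply, Matrix.add_apply, h1, h2]
    fin_cases j <;> simp [MX, MY, MZ]

theorem relZ (v : Fin 9 → R) (Y : Fin 3 → R) :
    MZ v Y * MZ v Y + MX v Y * MY v Y + v 4 • MX v Y + v 5 • MY v Y = Y 2 • (1 : Matrix (Fin 8) (Fin 8) R) := by
  have hXY : Commute (MX v Y) (MY v Y) := cXY v Y
  have hXZ : Commute (MX v Y) (MZ v Y) := cXZ v Y
  have hYZ : Commute (MY v Y) (MZ v Y) := cYZ v Y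
  refine eq_of_r0 v Y _ _ ?_ ?_ ?_ ?_ ?_ ?_ ?_
  · exact (((hXZ.mul_right hXZ).add_right ((Commute.refl _).mul_right hXY)).add_right
      ((Commute.refl _).smul_right _)).add_right (hXY.smul_right _)
  · exact (((hYZ.mul_right hYZ).add_right (hXY.symm.mul_right (Commute.refl _))).add_right
      (hXY.symm.smul_right _)).add_right ((Commute.refl _).smul_right _)
  · exact ((((Commute.refl _).mul_right (Commute.refl _)).add_right (hXZ.symm.mul_right hYZ.symm)).add_right
      (hXZ.symm.smul_right _)).add_right (hYZ.symm.smul_right _)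
  · exact (Commute.one_right _).smul_right _
  · exact (Commute.one_right _).smul_right _
  · exact (Commute.one_right _).smul_right _
  · funext j
    have h1 : (MZ v Y * MZ v Y) 0 j = MZ v Y 1 j := congrFun (mulr0 (rZ v Y)) j
    have h2 : (MX v Y * MY v Y) 0 j = MY v Y 4 j := congrFun (mulr0 (rX v Y)) j
    rw [Matrix.add_apply, Matrix.add_apply, Matrix.add_apply, h1, h2]
    fin_cases j <;> simp [MX, MY, MZ]

end Pool.Agent.LibMG6
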