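import Pool.Agent.LibMG6.C0

set_option autoImplicit false

/-! MP_ed98ad_ag, block H (helper6): scaling. -/

namespace Pool.Agent.LibMG6

open Pool.Agent.LibMX34

variable {R : Type} [CommRing R]

/-- degrees of the basis -/
def dgr : Fin 8 → ℕ := ![0, 1, 1, 2, 1, 2, 2, 3]

/-- `diag (t ^ g)` -/
def dT (t : R) : Matrix (Fin 8) (Fin 8) R := Matrix.diagonal fun i => t ^ dgr i

theorem sc_MX (t : R) (v : Fin 9 → R) (y : Fin 3 → R) :
    MX (fun j => t * v j) (fun j => t ^ 2 * y j) * dT t = t • (dT t * MX v y) := by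
  ext i j
  rw [dT, Matrix.mul_diagonal, Matrix.smul_apply, Matrix.diagonal_mul]
  fin_cases i <;> fin_cases j <;> simp [MX, dgr] <;> ring

theorem sc_MY (t : R) (v : Fin 9 → R) (y : Fin 3 → R) :
    MY (fun j => t * v j) (fun j => t ^ 2 * y j) * dT t = t • (dT t * MY v y) := by
  ext i j
  rw [dT, Matrix.mul_diagonal, Matrix.smul_apply, Matrix.diagonal_mul]
  fin_cases i <;> fin_cases j <;> simp [MY, dgr] <;> ring

theorem sc_MZ (t : R) (v : Fin 9 → R) (y : Fin 3 → R) :
    MZ (fun j => t * v j) (fun j => t ^ 2 * y j) * dT t = t • (dT t * MZ v y) := by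
  ext i j
  rw [dT, Matrix.mul_diagonal, Matrix.smul_apply, Matrix.diagonal_mul]
  fin_cases i <;> fin_cases j <;> simp [MZ, dgr] <;> ring

theorem sc_M4 (t : R) (v : Fin 9 → R) (y : Fin 3 → R) :
    M4 (fun j => t * v j) (fun j => t ^ 2 * y j) * dT t = t ^ 2 • (dT t * M4 v y) := by
  have hX := sc_MX t v y
  have hY := sc_MY t v y
  have hZ := sc_MZ t v y
  have h2 : ∀ A B A' B' : Matrix (Fin 8) (Fin 8) R, A' * dT t = t • (dT t * A) → B' * dT t = t • (dT t * B) →
      A' * B' * dT t = t ^ 2 • (dT t * (A * B)) := by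
    intro A B A' B' hA hB
    rw [Matrix.mul_assoc, hB, Matrix.mul_smul, ← Matrix.mul_assoc, hA, Matrix.smul_mul, Matrix.mul_assoc, smul_smul, sq]
  have h1 : ∀ (a : R) (A A' : Matrix (Fin 8) (Fin 8) R), A' * dT t = t • (dT t * A) →
      (t * a) • A' * dT t = t ^ 2 • (dT t * (a • A)) := by
    intro a A A' hA
    rw [Matrix.smul_mul, hA, Matrix.mul_smul, smul_smul, smul_smul]
    congr 1
    ring
  rw [M4, M4]
  simp only [Matrix.add_mul, Matrix.mul_add, smul_add]
  rw [h2 _ _ _ _ hY hZ, h1 _ _ _ hX, h1 _ _ _ hY, h1 _ _ _ hZ]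

theorem sc_GR (t : R) (ht : IsUnit t) (v : Fin 9 → R) (y : Fin 4 → R) :
    GR (fun j => t * v j) (fun j => t ^ 2 * y j) = t ^ 16 * GR v y := by
  have hM := sc_M4 t v (fun i : Fin 3 => y i.castSucc)
  set M := M4 v (fun i : Fin 3 => y i.castSucc) with hMd
  set M' := M4 (fun j => t * v j) (fun i : Fin 3 => t ^ 2 * y i.castSucc) with hMd'
  have h : (Matrix.scalar (Fin 8) (t ^ 2 * y 3) - M') * dT t = t ^ 2 • (dT t * (Matrix.scalar (Fin 8) (y 3) - M)) := by
    rw [Matrix.sub_mul, Matrix.mul_sub, smul_sub, hM]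
    congr 1
    rw [Matrix.scalar_apply, Matrix.scalar_apply, dT, Matrix.diagonal_mul_diagonal, Matrix.diagonal_mul_diagonal,
      ← Matrix.diagonal_smul]
    congr 1
    funext i
    simp only [Pi.smul_apply, smul_eq_mul]
    ring
  have h' := congrArg Matrix.det h
  rw [Matrix.det_mul, Matrix.det_smul, Matrix.det_mul, Fintype.card_fin, ← pow_mul] at h'
  have hd : IsUnit (dT t).det := by
    rw [dT, Matrix.det_diagonal]
    exact IsUnit.prod_iff.2 fun i _ => ht.pow _
  have h3 : (dT t).det * GR (fun j => t * v j) (fun j => t ^ 2 * y j) = (dT t).det * (t ^ 16 * GR v y) := by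
    rw [GR, GR]
    calc (dT t).det * (Matrix.scalar (Fin 8) (t ^ 2 * y 3) - M').det
        = (Matrix.scalar (Fin 8) (t ^ 2 * y 3) - M').det * (dT t).det := mul_comm _ _
      _ = _ := by rw [h']; ring
  exact hd.mul_left_cancel h3

end Pool.Agent.LibMG6
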