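import Pool.Agent.LibMG6.C1
import Pool.Agent.LibMG6.C1m
import Pool.Agent.LibMG6.C4
import Pool.Agent.LibMX34.I1
import Pool.Agent.LibMX34.I4

set_option autoImplicit false

/-! MP_ed98ad_ag, block H (helper6): identification of `GG`, `FU`, `GS`, `PhiS`; Euler. -/

namespace Pool.Agent.LibMG6

open Pool.Agent.LibMX34

section ident

theorem GG_eq : GG = GR (fun t : Fin 9 => (MvPolynomial.X (Fin.natAdd 4 t) : MvPolynomial (Fin 13) ℤ))
    (fun j : Fin 4 => MvPolynomial.X (Fin.castLE (by omega) j)) := rfl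

theorem FU_eq : FU = qd (fun t : Fin 9 => (MvPolynomial.X (Fin.natAdd 3 t) : MvPolynomial (Fin 12) ℤ))
    (MvPolynomial.X 0) (MvPolynomial.X 1) (MvPolynomial.X 2) := rfl

theorem FUs_GG : FUs GG = 0 := by
  have h1 : FUs GG = FUs.toRingHom GG := rfl
  rw [h1, GG_eq, map_GR]
  have h2 : (fun t : Fin 9 => FUs.toRingHom (MvPolynomial.X (Fin.natAdd 4 t))) =
      fun t : Fin 9 => (MvPolynomial.X (Fin.natAdd 3 t) : MvPolynomial (Fin 12) ℤ) := by
    funext t
    have h3 : FUs.toRingHom (MvPolynomial.X (Fin.natAdd 4 t)) = FUs (MvPolynomial.X (Fin.natAdd 4 t)) := rfl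
    rw [h3, FUs, MvPolynomial.aeval_X, Fin.append_right]
  have h4 : (fun j : Fin 4 => FUs.toRingHom (MvPolynomial.X (Fin.castLE (by omega) j))) = FU := by
    funext j
    have h3 : FUs.toRingHom (MvPolynomial.X (Fin.castLE (by omega) j)) = FUs (MvPolynomial.X (Fin.castAdd 9 j)) := rfl
    rw [h3, FUs, MvPolynomial.aeval_X, Fin.append_left]
  rw [h2, h4, FU_eq]
  exact GR_qd _ _ _ _

variable (k : Type) [Field k] {r : ℕ} (T : Fin 9 → Fin r → ℤ) (σ : Fin 9 → ℤ)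

theorem GS_eq : GS k T σ = GR (LO k T σ) (fun j : Fin 4 => MvPowerSeries.X (Fin.castLE (by omega) j)) := by
  have h1 : GS k T σ = (MvPolynomial.aeval (pO k T σ) : MvPolynomial (Fin 13) ℤ →ₐ[ℤ] _).toRingHom GG := rfl
  rw [h1, GG_eq, map_GR]
  congr 1
  · funext t
    have h3 : (MvPolynomial.aeval (pO k T σ) : MvPolynomial (Fin 13) ℤ →ₐ[ℤ] _).toRingHom (MvPolynomial.X (Fin.natAdd 4 t)) =
      MvPolynomial.aeval (pO k T σ) (MvPolynomial.X (Fin.natAdd 4 t)) := rfl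
    rw [h3, MvPolynomial.aeval_X, pO, Fin.append_right]
  · funext j
    have h3 : (MvPolynomial.aeval (pO k T σ) : MvPolynomial (Fin 13) ℤ →ₐ[ℤ] _).toRingHom (MvPolynomial.X (Fin.castLE (by omega) j)) =
      MvPolynomial.aeval (pO k T σ) (MvPolynomial.X (Fin.castAdd 9 j)) := rfl
    rw [h3, MvPolynomial.aeval_X, pO, Fin.append_left]

theorem PhiS_eq (j : Fin 4) : PhiS k T σ j = qd (LB k T σ) (MvPowerSeries.X 0) (MvPowerSeries.X 1) (MvPowerSeries.X 2) j := by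
  have h1 : PhiS k T σ j = (MvPolynomial.aeval (pB k T σ) : MvPolynomial (Fin 12) ℤ →ₐ[ℤ] _).toRingHom (FU j) := rfl
  rw [h1, FU_eq, map_qd]
  have hx : ∀ i : Fin 3, (MvPolynomial.aeval (pB k T σ) : MvPolynomial (Fin 12) ℤ →ₐ[ℤ] _).toRingHom (MvPolynomial.X (Fin.castAdd 9 i)) =
      MvPowerSeries.X (Fin.castLE (by omega) i) := by
    intro i
    have h3 : (MvPolynomial.aeval (pB k T σ) : MvPolynomial (Fin 12) ℤ →ₐ[ℤ] _).toRingHom (MvPolynomial.X (Fin.castAdd 9 i)) =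
      MvPolynomial.aeval (pB k T σ) (MvPolynomial.X (Fin.castAdd 9 i)) := rfl
    rw [h3, MvPolynomial.aeval_X, pB, Fin.append_left]
  have h2 : (fun t : Fin 9 => (MvPolynomial.aeval (pB k T σ) : MvPolynomial (Fin 12) ℤ →ₐ[ℤ] _).toRingHom
      (MvPolynomial.X (Fin.natAdd 3 t))) = LB k T σ := by
    funext t
    have h3 : (MvPolynomial.aeval (pB k T σ) : MvPolynomial (Fin 12) ℤ →ₐ[ℤ] _).toRingHom (MvPolynomial.X (Fin.natAdd 3 t)) =
      MvPolynomial.aeval (pB k T σ) (MvPolynomial.X (Fin.natAdd 3 t)) := rfl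
    rw [h3, MvPolynomial.aeval_X, pB, Fin.append_right]
  rw [h2]
  congr 1
  · exact hx 0
  · exact hx 1
  · exact hx 2

theorem Phi0_eq (j : Fin 4) : Phi0 k T j = qd (LB0 k T) (MvPowerSeries.X 0) (MvPowerSeries.X 1) (MvPowerSeries.X 2) j := by
  have h1 : Phi0 k T j = (MvPolynomial.aeval (pB0 k T) : MvPolynomial (Fin 12) ℤ →ₐ[ℤ] _).toRingHom (FU j) := rfl
  rw [h1, FU_eq, map_qd]
  have hx : ∀ i : Fin 3, (MvPolynomial.aeval (pB0 k T) : MvPolynomial (Fin 12) ℤ →ₐ[ℤ] _).toRingHom (MvPolynomial.X (Fin.castAdd 9 i)) =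
      MvPowerSeries.X (Fin.castLE (by omega) i) := by
    intro i
    have h3 : (MvPolynomial.aeval (pB0 k T) : MvPolynomial (Fin 12) ℤ →ₐ[ℤ] _).toRingHom (MvPolynomial.X (Fin.castAdd 9 i)) =
      MvPolynomial.aeval (pB0 k T) (MvPolynomial.X (Fin.castAdd 9 i)) := rfl
    rw [h3, MvPolynomial.aeval_X, pB0, Fin.append_left]
  have h2 : (fun t : Fin 9 => (MvPolynomial.aeval (pB0 k T) : MvPolynomial (Fin 12) ℤ →ₐ[ℤ] _).toRingHom
      (MvPolynomial.X (Fin.natAdd 3 t))) = LB0 k T := by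
    funext t
    have h3 : (MvPolynomial.aeval (pB0 k T) : MvPolynomial (Fin 12) ℤ →ₐ[ℤ] _).toRingHom (MvPolynomial.X (Fin.natAdd 3 t)) =
      MvPolynomial.aeval (pB0 k T) (MvPolynomial.X (Fin.natAdd 3 t)) := rfl
    rw [h3, MvPolynomial.aeval_X, pB0, Fin.append_right]
  rw [h2]
  congr 1
  · exact hx 0
  · exact hx 1
  · exact hx 2

end ident

section dual

variable {R : Type} [CommRing R]

/-- `a ↦ a + E(a) ε` -/
def dl (E : R → R) (h1 : E 1 = 0) (h0 : E 0 = 0) (ha : ∀ a b, E (a + b) = E a + E b)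
    (hm : ∀ a b, E (a * b) = E a * b + a * E b) : R →+* TrivSqZeroExt R R where
  toFun a := TrivSqZeroExt.inl a + TrivSqZeroExt.inr (E a)
  map_one' := by
    rw [h1]
    refine TrivSqZeroExt.ext ?_ ?_ <;> simp
  map_zero' := by
    rw [h0]
    refine TrivSqZeroExt.ext ?_ ?_ <;> simp
  map_add' a b := by
    rw [ha]
    refine TrivSqZeroExt.ext ?_ ?_ <;> simp
  map_mul' a b := by
    rw [hm]
    refine TrivSqZeroExt.ext ?_ ?_
    · simp
    · simp only [TrivSqZeroExt.snd_add, TrivSqZeroExt.snd_inl, TrivSqZeroExt.snd_inr, TrivSqZeroExt.snd_mul,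
        TrivSqZeroExt.fst_add, TrivSqZeroExt.fst_inl, TrivSqZeroExt.fst_inr, zero_add, add_zero, smul_eq_mul,
        MulOpposite.smul_eq_mul_unop, MulOpposite.unop_op]
      ring

theorem dl_apply (E : R → R) (h1 : E 1 = 0) (h0 : E 0 = 0) (ha : ∀ a b, E (a + b) = E a + E b)
    (hm : ∀ a b, E (a * b) = E a * b + a * E b) (a : R) :
    dl E h1 h0 ha hm a = TrivSqZeroExt.inl a + TrivSqZeroExt.inr (E a) := rfl

/-- `1 + ε` -/
def te (R : Type) [CommRing R] : TrivSqZeroExt R R := TrivSqZeroExt.inl 1 + TrivSqZeroExt.inr 1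

theorem te_unit : IsUnit (te R) := by
  refine isUnit_iff_exists_inv.2 ⟨TrivSqZeroExt.inl 1 + TrivSqZeroExt.inr (-1), ?_⟩
  refine TrivSqZeroExt.ext ?_ ?_ <;> simp [te]

theorem te_pow_mul (n : ℕ) (a : R) : te R ^ n * TrivSqZeroExt.inl a = TrivSqZeroExt.inl a + TrivSqZeroExt.inr (n * a) := by
  induction n with
  | zero => refine TrivSqZeroExt.ext ?_ ?_ <;> simp
  | succ n ih =>
    rw [pow_succ', mul_assoc, ih]
    refine TrivSqZeroExt.ext ?_ ?_
    · simp [te]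
    · simp only [te, TrivSqZeroExt.snd_add, TrivSqZeroExt.snd_inl, TrivSqZeroExt.snd_inr, TrivSqZeroExt.snd_mul,
        TrivSqZeroExt.fst_add, TrivSqZeroExt.fst_inl, TrivSqZeroExt.fst_inr, zero_add, add_zero, smul_eq_mul,
        MulOpposite.smul_eq_mul_unop, MulOpposite.unop_op]
      push_cast
      ring

theorem euler_GR (E : R → R) (h1 : E 1 = 0) (h0 : E 0 = 0) (ha : ∀ a b, E (a + b) = E a + E b)
    (hm : ∀ a b, E (a * b) = E a * b + a * E b) (v : Fin 9 → R) (y : Fin 4 → R)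
    (hl : ∀ t, E (v t) = v t) (hy : ∀ j, E (y j) = 2 * y j) : E (GR v y) = 16 * GR v y := by
  have e := map_GR (dl E h1 h0 ha hm) v y
  have el : (fun t => dl E h1 h0 ha hm (v t)) = fun t => te R * TrivSqZeroExt.inl (v t) := by
    funext t
    have := te_pow_mul 1 (v t)
    rw [pow_one] at this
    rw [dl_apply, hl, this]
    simp
  have ey : (fun j => dl E h1 h0 ha hm (y j)) = fun j => te R ^ 2 * TrivSqZeroExt.inl (y j) := by
    funext j
    rw [dl_apply, hy, te_pow_mul]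
    simp
  rw [el, ey, sc_GR _ te_unit] at e
  have e2 := map_GR (TrivSqZeroExt.inlHom R R) v y
  have e3 : GR (fun t => (TrivSqZeroExt.inl (v t) : TrivSqZeroExt R R)) (fun j => TrivSqZeroExt.inl (y j)) =
      TrivSqZeroExt.inl (GR v y) := e2.symm
  rw [e3, dl_apply, te_pow_mul] at e
  have e4 := congrArg TrivSqZeroExt.snd e
  simpa using e4

end dual

end Pool.Agent.LibMG6
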