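import Pool.Agent.LibMG6.C5

set_option autoImplicit false

/-! MP_ed98ad_ag, block H (helper6): the Euler field. -/

namespace Pool.Agent.LibMG6

open Pool.Agent.LibMX34

/-- the weights of the target: 2 for the `Y_j`, 1 for the `u_a` -/
def wtT {r : ℕ} : Fin (r + 4) → ℕ := Fin.cons 2 (Fin.cons 2 (Fin.cons 2 (Fin.cons 2 fun _ : Fin r => 1)))

/-- the Euler field -/
noncomputable def EE (k : Type) [Field k] {r : ℕ} (a : MvPowerSeries (Fin (r + 4)) (PowerSeries k)) :
    MvPowerSeries (Fin (r + 4)) (PowerSeries k) :=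
  sV k * dS k a + ∑ j, (wtT j : MvPowerSeries (Fin (r + 4)) (PowerSeries k)) * (MvPowerSeries.X j * MvPowerSeries.pderiv (PowerSeries k) j a)

theorem EE_add (k : Type) [Field k] {r : ℕ} (a b : MvPowerSeries (Fin (r + 4)) (PowerSeries k)) : EE k (a + b) = EE k a + EE k b := by
  rw [EE, EE, EE, dS_add]
  have : ∑ j, (wtT j : MvPowerSeries (Fin (r + 4)) (PowerSeries k)) * (MvPowerSeries.X j * MvPowerSeries.pderiv (PowerSeries k) j (a + b)) =
      ∑ j, (wtT j : MvPowerSeries (Fin (r + 4)) (PowerSeries k)) * (MvPowerSeries.X j * MvPowerSeries.pderiv (PowerSeries k) j a) +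
      ∑ j, (wtT j : MvPowerSeries (Fin (r + 4)) (PowerSeries k)) * (MvPowerSeries.X j * MvPowerSeries.pderiv (PowerSeries k) j b) := by
    rw [← Finset.sum_add_distrib]
    refine Finset.sum_congr rfl fun j _ => ?_
    rw [map_add]
    ring
  rw [this]
  ring

theorem EE_mul (k : Type) [Field k] {r : ℕ} (a b : MvPowerSeries (Fin (r + 4)) (PowerSeries k)) :
    EE k (a * b) = EE k a * b + a * EE k b := by
  rw [EE, EE, EE, dS_mul]
  have : ∑ j, (wtT j : MvPowerSeries (Fin (r + 4)) (PowerSeries k)) * (MvPowerSeries.X j * MvPowerSeries.pderiv (PowerSeries k) j (a * b)) =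
      (∑ j, (wtT j : MvPowerSeries (Fin (r + 4)) (PowerSeries k)) * (MvPowerSeries.X j * MvPowerSeries.pderiv (PowerSeries k) j a)) * b +
      a * ∑ j, (wtT j : MvPowerSeries (Fin (r + 4)) (PowerSeries k)) * (MvPowerSeries.X j * MvPowerSeries.pderiv (PowerSeries k) j b) := by
    rw [Finset.mul_sum, Finset.sum_mul, ← Finset.sum_add_distrib]
    refine Finset.sum_congr rfl fun j _ => ?_
    rw [Derivation.leibniz, smul_eq_mul, smul_eq_mul]
    ring
  rw [this]
  ring

theorem EE_zero (k : Type) [Field k] {r : ℕ} : EE k (0 : MvPowerSeries (Fin (r + 4)) (PowerSeries k)) = 0 := by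
  have := EE_add k (0 : MvPowerSeries (Fin (r + 4)) (PowerSeries k)) 0
  rw [add_zero] at this
  exact left_eq_add.1 this

theorem EE_one (k : Type) [Field k] {r : ℕ} : EE k (1 : MvPowerSeries (Fin (r + 4)) (PowerSeries k)) = 0 := by
  have := EE_mul k (1 : MvPowerSeries (Fin (r + 4)) (PowerSeries k)) 1
  rw [mul_one, mul_one, one_mul] at this
  exact left_eq_add.1 this

theorem EE_C (k : Type) [Field k] {r : ℕ} (c : PowerSeries k) :
    EE k (MvPowerSeries.C c : MvPowerSeries (Fin (r + 4)) (PowerSeries k)) = MvPowerSeries.C (PowerSeries.X * PowerSeries.derivative k c) := by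
  classical
  have h : dS k (MvPowerSeries.C c : MvPowerSeries (Fin (r + 4)) (PowerSeries k)) = MvPowerSeries.C (PowerSeries.derivative k c) := by
    ext1 e
    change PowerSeries.derivative k (MvPowerSeries.coeff e (MvPowerSeries.C c)) = _
    rw [MvPowerSeries.coeff_C, MvPowerSeries.coeff_C]
    split_ifs
    · rfl
    · rw [map_zero]
  rw [EE, h, sV, map_mul]
  simp

theorem EE_X (k : Type) [Field k] {r : ℕ} (i : Fin (r + 4)) :
    EE k (MvPowerSeries.X i : MvPowerSeries (Fin (r + 4)) (PowerSeries k)) =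
      (wtT i : MvPowerSeries (Fin (r + 4)) (PowerSeries k)) * MvPowerSeries.X i := by
  classical
  have h : dS k (MvPowerSeries.X i : MvPowerSeries (Fin (r + 4)) (PowerSeries k)) = 0 := by
    ext1 e
    change PowerSeries.derivative k (MvPowerSeries.coeff e (MvPowerSeries.X i)) = _
    rw [MvPowerSeries.coeff_X, map_zero]
    split_ifs
    · exact Derivation.map_one_eq_zero _
    · rw [map_zero]
  rw [EE, h, mul_zero, zero_add, Finset.sum_eq_single i]
  · rw [MvPowerSeries.pderiv_X_self, mul_one]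
  · intro j _ hj
    rw [MvPowerSeries.pderiv_X_of_ne hj.symm, mul_zero, mul_zero]
  · intro h
    exact absurd (Finset.mem_univ i) h

theorem EE_int (k : Type) [Field k] {r : ℕ} (n : ℤ) : EE k (n : MvPowerSeries (Fin (r + 4)) (PowerSeries k)) = 0 := by
  have h1 : (n : MvPowerSeries (Fin (r + 4)) (PowerSeries k)) = MvPowerSeries.C (PowerSeries.C (n : k)) := by
    rw [map_intCast, map_intCast]
  have h2 : PowerSeries.derivative k (PowerSeries.C (n : k)) = 0 := (PowerSeries.derivative k).map_algebraMap _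
  rw [h1, EE_C, h2, mul_zero, map_zero]

theorem EE_sV (k : Type) [Field k] {r : ℕ} : EE k (sV k : MvPowerSeries (Fin (r + 4)) (PowerSeries k)) = sV k := by
  rw [sV, EE_C]
  congr 1
  rw [PowerSeries.derivative_X, mul_one]

theorem EE_sum (k : Type) [Field k] {r : ℕ} {ι : Type} (t : Finset ι) (F : ι → MvPowerSeries (Fin (r + 4)) (PowerSeries k)) :
    EE k (∑ a ∈ t, F a) = ∑ a ∈ t, EE k (F a) := by
  classical
  induction t using Finset.induction_on with
  | empty => simpa using EE_zero k
  | insert a t ha ih => rw [Finset.sum_insert ha, Finset.sum_insert ha, EE_add, ih]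

variable (k : Type) [Field k] {r : ℕ} (T : Fin 9 → Fin r → ℤ) (σ : Fin 9 → ℤ)

theorem EE_LO (t : Fin 9) : EE k (LO k T σ t) = LO k T σ t := by
  rw [LO, EE_add, EE_sum, EE_mul, EE_int, EE_sV, zero_mul, zero_add]
  congr 1
  refine Finset.sum_congr rfl fun a _ => ?_
  rw [EE_mul, EE_int, zero_mul, zero_add, EE_X]
  congr 1
  have : (wtT (a.succ.succ.succ.succ : Fin (r + 4))) = 1 := rfl
  rw [this, Nat.cast_one, one_mul]

theorem EE_GS : EE k (GS k T σ) = 16 * GS k T σ := by
  rw [GS_eq]
  refine euler_GR (EE k) (EE_one k) (EE_zero k) (EE_add k) (EE_mul k) _ _ (EE_LO k T σ) ?_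
  intro j
  rw [EE_X]
  have h2 : ((2 : ℕ) : MvPowerSeries (Fin (r + 4)) (PowerSeries k)) = 2 := Nat.cast_ofNat
  fin_cases j
  · exact congrArg (· * _) h2
  · exact congrArg (· * _) h2
  · exact congrArg (· * _) h2
  · exact congrArg (· * _) h2

theorem euler_S [CharZero k] :
    ∃ (κ : MvPowerSeries (Fin (r + 4)) (PowerSeries k)) (κ' : Fin (r + 4) → MvPowerSeries (Fin (r + 4)) (PowerSeries k)),
    GS k T σ = κ * sV k * dS k (GS k T σ) + ∑ j, κ' j * MvPowerSeries.pderiv (PowerSeries k) j (GS k T σ) := by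
  set c16 : MvPowerSeries (Fin (r + 4)) (PowerSeries k) := MvPowerSeries.C (PowerSeries.C (16 : k)⁻¹) with hc
  have h16 : c16 * 16 = 1 := by
    have : (16 : MvPowerSeries (Fin (r + 4)) (PowerSeries k)) = MvPowerSeries.C (PowerSeries.C (16 : k)) := by
      rw [map_ofNat, map_ofNat]
    rw [this, hc, ← map_mul, ← map_mul, inv_mul_cancel₀ (by norm_num), map_one, map_one]
  refine ⟨c16, fun j => c16 * ((wtT j : MvPowerSeries (Fin (r + 4)) (PowerSeries k)) * MvPowerSeries.X j), ?_⟩
  have h := EE_GS k T σ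
  rw [EE] at h
  calc GS k T σ = c16 * (16 * GS k T σ) := by rw [← mul_assoc, h16, one_mul]
    _ = _ := by
      rw [← h, mul_add, Finset.mul_sum]
      congr 1
      · ring
      · refine Finset.sum_congr rfl fun j _ => ?_
        ring

end Pool.Agent.LibMG6
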