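import Pool.Agent.LibMG6.C1m

set_option autoImplicit false

/-! MP_ed98ad_ag, block H (helper6): the matrix at the origin is strictly upper triangular; `GR 0 (0,0,0,t) = t^8`. -/

namespace Pool.Agent.LibMG6

open Pool.Agent.LibMX34

theorem M4_int (i j : Fin 8) (h : j ≤ i) : M4 (fun _ : Fin 9 => (0 : ℤ)) (fun _ : Fin 3 => 0) i j = 0 := by
  revert i j
  decide

theorem M4_tri {R : Type} [CommRing R] (i j : Fin 8) (h : j ≤ i) : M4 (fun _ : Fin 9 => (0 : R)) (fun _ : Fin 3 => 0) i j = 0 := by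
  have e := map_M4 (Int.castRingHom R) (fun _ : Fin 9 => (0 : ℤ)) (fun _ : Fin 3 => 0)
  simp only [map_zero] at e
  have e2 := congrFun (congrFun e i) j
  rw [Matrix.map_apply, M4_int i j h, map_zero] at e2
  exact e2.symm

theorem GR_zero {R : Type} [CommRing R] (y : Fin 4 → R) (h0 : y 0 = 0) (h1 : y 1 = 0) (h2 : y 2 = 0) :
    GR (fun _ => 0) y = y 3 ^ 8 := by
  have hy : (fun i : Fin 3 => y i.castSucc) = fun _ => 0 := by
    funext i
    fin_cases i
    · exact h0
    · exact h1
    · exact h2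
  rw [GR, hy, Matrix.det_of_isUpperTriangular]
  · have : ∀ i : Fin 8, (Matrix.scalar (Fin 8) (y 3) - M4 (fun _ : Fin 9 => (0 : R)) (fun _ : Fin 3 => 0)) i i = y 3 := by
      intro i
      rw [Matrix.sub_apply, M4_tri i i le_rfl, Matrix.scalar_apply, Matrix.diagonal_apply_eq, sub_zero]
    rw [Finset.prod_congr rfl fun i _ => this i, Finset.prod_const, Finset.card_univ, Fintype.card_fin]
  · intro i j hij
    have hij' : j < i := hij
    rw [Matrix.sub_apply, M4_tri i j hij'.le, Matrix.scalar_apply, Matrix.diagonal_apply_ne _ hij'.ne', sub_zero]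

end Pool.Agent.LibMG6
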