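import Pool.Agent.LibMG6.C6
import Pool.Agent.LibMG6.C7a

set_option autoImplicit false

/-! MP_ed98ad_ag, block H (helper6): `g` at `s = 0`, weights, reducedness. -/

namespace Pool.Agent.LibMG6

open Pool.Agent.LibMX34

/-- polynomials as power series -/
noncomputable abbrev pc (k : Type) [Field k] (ι : Type) : MvPolynomial ι k →+* MvPowerSeries ι k :=
  MvPolynomial.coeToMvPowerSeries.ringHom

theorem pc_X (k : Type) [Field k] (ι : Type) (i : ι) : pc k ι (MvPolynomial.X i) = MvPowerSeries.X i := MvPolynomial.coe_X i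

theorem az_sV (k : Type) [Field k] (ι : Type) : atZero k (sV k : MvPowerSeries ι (PowerSeries k)) = 0 := by
  rw [sV, atZero, MvPowerSeries.map_C, PowerSeries.constantCoeff_X, map_zero]

theorem az_X (k : Type) [Field k] (ι : Type) (i : ι) :
    atZero k (MvPowerSeries.X i : MvPowerSeries ι (PowerSeries k)) = MvPowerSeries.X i := by
  rw [atZero, MvPowerSeries.map_X]

/-- coefficient of `X_j ∂_j b` -/
theorem co_Xp (k : Type) [Field k] {N : ℕ} (j : Fin N) (b : MvPowerSeries (Fin N) k) (e : Fin N →₀ ℕ) :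
    MvPowerSeries.coeff e (MvPowerSeries.X j * MvPowerSeries.pderiv k j b) = (e j : k) * MvPowerSeries.coeff e b := by
  classical
  by_cases h : Finsupp.single j 1 ≤ e
  · obtain ⟨e', rfl⟩ := le_iff_exists_add.1 h
    rw [MvPowerSeries.X, MvPowerSeries.coeff_add_monomial_mul, one_mul, MvPowerSeries.coeff_pderiv, add_comm e']
    simp only [Finsupp.coe_add, Pi.add_apply, Finsupp.single_eq_same]
    push_cast
    ring
  · rw [MvPowerSeries.X, MvPowerSeries.coeff_monomial_mul, if_neg h]
    have : e j = 0 := by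
      by_contra h'
      exact h (Finsupp.single_le_iff.2 (Nat.one_le_iff_ne_zero.2 h'))
    rw [this, Nat.cast_zero, zero_mul]

/-- coefficient of the restriction to one axis -/
theorem co_axis (k : Type) [Field k] {N : ℕ} (j : Fin N) (p : MvPolynomial (Fin N) k) (n : ℕ) :
    (MvPolynomial.aeval (fun i => if i = j then (Polynomial.X : Polynomial k) else 0) p).coeff n =
      MvPolynomial.coeff (Finsupp.single j n) p := by
  classical
  induction p using MvPolynomial.induction_on' with
  | monomial e a =>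
    rw [MvPolynomial.aeval_monomial, MvPolynomial.coeff_monomial]
    by_cases h : ∀ i, i ≠ j → e i = 0
    · have he : e = Finsupp.single j (e j) := by
        ext i
        by_cases hi : i = j
        · rw [hi, Finsupp.single_eq_same]
        · rw [h i hi, Finsupp.single_eq_of_ne hi]
      have h1 : (e.prod fun i n => (if i = j then (Polynomial.X : Polynomial k) else 0) ^ n) = Polynomial.X ^ e j := by
        conv_lhs => rw [he]
        rw [Finsupp.prod_single_index]
        · rw [if_pos rfl]
        · rw [pow_zero]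
      rw [h1]
      have h2 : (algebraMap k (Polynomial k)) a = Polynomial.C a := rfl
      rw [h2, Polynomial.coeff_C_mul, Polynomial.coeff_X_pow]
      by_cases hn : n = e j
      · rw [if_pos hn, if_pos (by rw [hn]; exact he), mul_one]
      · rw [if_neg hn, if_neg, mul_zero]
        intro h3
        apply hn
        have := congrArg (fun f => f j) h3
        simpa using this.symm
    · push Not at h
      obtain ⟨i, hi, hei⟩ := h
      have h1 : (e.prod fun i n => (if i = j then (Polynomial.X : Polynomial k) else 0) ^ n) = 0 := by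
        rw [Finsupp.prod]
        refine Finset.prod_eq_zero (Finsupp.mem_support_iff.2 hei) ?_
        rw [if_neg hi, zero_pow hei]
      rw [h1, mul_zero, Polynomial.coeff_zero, if_neg]
      intro h3
      apply hei
      rw [h3, Finsupp.single_eq_of_ne hi]
  | add p q hp hq => rw [map_add, Polynomial.coeff_add, hp, hq, MvPolynomial.coeff_add]

theorem w3 (r : ℕ) : ((3 : Fin (r + 4)) : ℕ) = 3 := by
  change 3 % (r + 4) = 3
  exact Nat.mod_eq_of_lt (by omega)

theorem w2 (r : ℕ) : ((2 : Fin (r + 4)) : ℕ) = 2 := by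
  change 2 % (r + 4) = 2
  exact Nat.mod_eq_of_lt (by omega)

theorem w1 (r : ℕ) : ((1 : Fin (r + 4)) : ℕ) = 1 := by
  change 1 % (r + 4) = 1
  exact Nat.mod_eq_of_lt (by omega)

theorem w0' (r : ℕ) : ((0 : Fin (r + 4)) : ℕ) = 0 := rfl

variable (k : Type) [Field k] {r : ℕ} (T : Fin 9 → Fin r → ℤ) (σ : Fin 9 → ℤ)

/-- the linear forms at `s = 0` as polynomials in `Y, u` -/
noncomputable def lvQ (t : Fin 9) : MvPolynomial (Fin (r + 4)) k :=
  ∑ a, (T t a : MvPolynomial (Fin (r + 4)) k) * MvPolynomial.X a.succ.succ.succ.succ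

/-- the linear forms at `s = 0` as polynomials in `x, y, z, u` -/
noncomputable def lvP (t : Fin 9) : MvPolynomial (Fin (r + 3)) k :=
  ∑ a, (T t a : MvPolynomial (Fin (r + 3)) k) * MvPolynomial.X a.succ.succ.succ

/-- the image equation at `s = 0` as a polynomial -/
noncomputable def gQ : MvPolynomial (Fin (r + 4)) k := GR (lvQ k T) (fun j : Fin 4 => MvPolynomial.X (Fin.castLE (by omega) j))

/-- the polynomial map at `s = 0` -/
noncomputable def fQ : Fin (r + 4) → MvPolynomial (Fin (r + 3)) k :=
  Fin.cons (qd (lvP k T) (MvPolynomial.X 0) (MvPolynomial.X 1) (MvPolynomial.X 2) 0)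
    (Fin.cons (qd (lvP k T) (MvPolynomial.X 0) (MvPolynomial.X 1) (MvPolynomial.X 2) 1)
      (Fin.cons (qd (lvP k T) (MvPolynomial.X 0) (MvPolynomial.X 1) (MvPolynomial.X 2) 2)
        (Fin.cons (qd (lvP k T) (MvPolynomial.X 0) (MvPolynomial.X 1) (MvPolynomial.X 2) 3)
          fun a : Fin r => MvPolynomial.X a.succ.succ.succ)))

theorem az_LO (t : Fin 9) : atZero k (LO k T σ t) = pc k _ (lvQ k T t) := by
  rw [LO, lvQ, map_add, map_mul, az_sV, mul_zero, add_zero, map_sum, map_sum]
  refine Finset.sum_congr rfl fun a _ => ?_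
  rw [map_mul, map_mul, map_intCast, map_intCast, az_X, pc_X]

theorem az_LB (t : Fin 9) : atZero k (LB k T σ t) = pc k _ (lvP k T t) := by
  rw [LB, lvP, map_add, map_mul, az_sV, mul_zero, add_zero, map_sum, map_sum]
  refine Finset.sum_congr rfl fun a _ => ?_
  rw [map_mul, map_mul, map_intCast, map_intCast, az_X, pc_X]

theorem az_GS : atZero k (GS k T σ) = pc k _ (gQ k T) := by
  rw [GS_eq, gQ, map_GR, map_GR]
  congr 1
  · funext t
    exact az_LO k T σ t
  · funext j
    exact (az_X k _ _).trans (pc_X k _ _).symm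

theorem az_PhiS (j : Fin 4) :
    atZero k (PhiS k T σ j) = pc k _ (qd (lvP k T) (MvPolynomial.X 0) (MvPolynomial.X 1) (MvPolynomial.X 2) j) := by
  rw [PhiS_eq, map_qd, map_qd, az_X, az_X, az_X, pc_X, pc_X, pc_X]
  have : (fun t => atZero k (LB k T σ t)) = fun t => pc k _ (lvP k T t) := by
    funext t
    exact az_LB k T σ t
  rw [this]

theorem unf_az : (unf k fun j => atZero k (PhiS k T σ j)) = fun j => pc k _ (fQ k T j) := by
  funext j
  refine Fin.cases ?_ (fun j => ?_) j
  · exact az_PhiS k T σ 0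
  refine Fin.cases ?_ (fun j => ?_) j
  · exact az_PhiS k T σ 1
  refine Fin.cases ?_ (fun j => ?_) j
  · exact az_PhiS k T σ 2
  refine Fin.cases ?_ (fun j => ?_) j
  · exact az_PhiS k T σ 3
  · exact (pc_X k _ _).symm

theorem const_S (j : Fin 4) : MvPowerSeries.constantCoeff (PhiS k T σ j) = 0 := by
  rw [PhiS_eq, map_qd]
  simp only [MvPowerSeries.constantCoeff_X]
  fin_cases j <;> simp [qd]

theorem wt_g [CharZero k] (e : Fin (r + 4) →₀ ℕ) (he : MvPowerSeries.coeff e (atZero k (GS k T σ)) ≠ 0) :
    Finsupp.weight wtT e = 16 := by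
  have h := congrArg (atZero k) (EE_GS k T σ)
  rw [EE, map_add, map_mul, az_sV, zero_mul, zero_add, map_sum, map_mul, map_ofNat] at h
  have h2 : ∀ j : Fin (r + 4), atZero k ((wtT j : MvPowerSeries (Fin (r + 4)) (PowerSeries k)) *
      (MvPowerSeries.X j * MvPowerSeries.pderiv (PowerSeries k) j (GS k T σ))) =
      (wtT j : MvPowerSeries (Fin (r + 4)) k) * (MvPowerSeries.X j * MvPowerSeries.pderiv k j (atZero k (GS k T σ))) := by
    intro j
    rw [map_mul, map_mul, map_natCast, az_X, at_pderiv]
  rw [Finset.sum_congr rfl fun j _ => h2 j] at h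
  have h3 := congrArg (MvPowerSeries.coeff e) h
  rw [map_sum] at h3
  have h4 : ∀ (n : ℕ) (b : MvPowerSeries (Fin (r + 4)) k), MvPowerSeries.coeff e ((n : MvPowerSeries (Fin (r + 4)) k) * b) =
      (n : k) * MvPowerSeries.coeff e b := by
    intro n b
    rw [← nsmul_eq_mul, map_nsmul, nsmul_eq_mul]
  have h5 : MvPowerSeries.coeff e ((16 : MvPowerSeries (Fin (r + 4)) k) * atZero k (GS k T σ)) =
      16 * MvPowerSeries.coeff e (atZero k (GS k T σ)) := h4 16 _
  rw [h5, Finset.sum_congr rfl fun j _ => (h4 (wtT j) _).trans (congrArg _ (co_Xp k j _ e))] at h3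
  have h6 : (∑ j, (wtT j : k) * ((e j : k) * MvPowerSeries.coeff e (atZero k (GS k T σ)))) =
      ((Finsupp.weight wtT e : ℕ) : k) * MvPowerSeries.coeff e (atZero k (GS k T σ)) := by
    rw [Finsupp.weight_apply, Finsupp.sum_fintype _ _ (by simp), Nat.cast_sum, Finset.sum_mul]
    refine Finset.sum_congr rfl fun j _ => ?_
    rw [smul_eq_mul, Nat.cast_mul]
    ring
  rw [h6] at h3
  have h7 := mul_right_cancel₀ he h3
  exact_mod_cast h7

theorem g_lead : MvPolynomial.coeff (Finsupp.single (3 : Fin (r + 4)) 8) (gQ k T) = 1 := by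
  rw [← co_axis]
  have h1 : MvPolynomial.aeval (fun i => if i = (3 : Fin (r + 4)) then (Polynomial.X : Polynomial k) else 0) (gQ k T) =
      (MvPolynomial.aeval (fun i => if i = (3 : Fin (r + 4)) then (Polynomial.X : Polynomial k) else 0) :
        MvPolynomial (Fin (r + 4)) k →ₐ[k] Polynomial k).toRingHom (gQ k T) := rfl
  have hX : ∀ i, (MvPolynomial.aeval (fun i => if i = (3 : Fin (r + 4)) then (Polynomial.X : Polynomial k) else 0) :
        MvPolynomial (Fin (r + 4)) k →ₐ[k] Polynomial k).toRingHom (MvPolynomial.X i) =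
        if i = (3 : Fin (r + 4)) then (Polynomial.X : Polynomial k) else 0 := fun i => MvPolynomial.aeval_X _ i
  rw [h1, gQ, map_GR]
  have h2 : (fun t => (MvPolynomial.aeval (fun i => if i = (3 : Fin (r + 4)) then (Polynomial.X : Polynomial k) else 0) :
        MvPolynomial (Fin (r + 4)) k →ₐ[k] Polynomial k).toRingHom (lvQ k T t)) = fun _ => 0 := by
    funext t
    rw [lvQ, map_sum]
    refine Finset.sum_eq_zero fun a _ => ?_
    rw [map_mul, hX, if_neg, mul_zero]
    intro h
    have h5 := congrArg Fin.val h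
    rw [w3 r] at h5
    simp at h5
  rw [h2, GR_zero]
  · have h3 : (MvPolynomial.aeval (fun i => if i = (3 : Fin (r + 4)) then (Polynomial.X : Polynomial k) else 0) :
        MvPolynomial (Fin (r + 4)) k →ₐ[k] Polynomial k).toRingHom (MvPolynomial.X (Fin.castLE (by omega) (3 : Fin 4))) = Polynomial.X := by
      rw [hX, if_pos]
      rw [Fin.ext_iff, w3]
      rfl
    rw [h3, Polynomial.coeff_X_pow, if_pos rfl]
  · rw [hX, if_neg]
    intro h
    have h5 := congrArg Fin.val h
    rw [w3 r] at h5
    simp at h5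
  · rw [hX, if_neg]
    intro h
    have h5 := congrArg Fin.val h
    rw [w3 r] at h5
    simp at h5
  · rw [hX, if_neg]
    intro h
    have h5 := congrArg Fin.val h
    rw [w3 r] at h5
    simp at h5

theorem reduced_S [CharZero k] : ∃ j, ¬ (atZero k (GS k T σ) ∣ MvPowerSeries.pderiv k j (atZero k (GS k T σ))) := by
  classical
  refine ⟨3, ?_⟩
  rintro ⟨q, hq⟩
  have h1 := congrArg (MvPowerSeries.coeff (Finsupp.single (3 : Fin (r + 4)) 7)) hq
  have e78 : (7 : ℕ) + 1 = 8 := rfl
  rw [MvPowerSeries.coeff_pderiv, MvPowerSeries.coeff_mul, Finset.sum_eq_zero, ← Finsupp.single_add, e78] at h1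
  · have h2 : MvPowerSeries.coeff (Finsupp.single (3 : Fin (r + 4)) 8) (atZero k (GS k T σ)) = 1 := by
      rw [az_GS]
      exact (MvPolynomial.coeff_coe _ _).trans (g_lead k T)
    rw [h2, Finsupp.single_eq_same, one_mul] at h1
    norm_num at h1
  · intro x hx
    rw [Finset.HasAntidiagonal.mem_antidiagonal] at hx
    by_cases h : MvPowerSeries.coeff x.1 (atZero k (GS k T σ)) = 0
    · rw [h, zero_mul]
    · exfalso
      have h3 := wt_g k T σ x.1 h
      have h4 := congrArg (Finsupp.weight (wtT : Fin (r + 4) → ℕ)) hx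
      rw [map_add, h3, Finsupp.weight_single] at h4
      have h5 : (wtT (3 : Fin (r + 4))) = 2 := rfl
      rw [h5] at h4
      simp only [smul_eq_mul] at h4
      omega

end Pool.Agent.LibMG6
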