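import Pool.Agent.LibMG6.C7
import Pool.Agent.LibMG6.C3
import Pool.Agent.LibMG6.B5

set_option autoImplicit false

/-! MP_ed98ad_ag, block H (helper6): the kernel of the polynomial map. -/

namespace Pool.Agent.LibMG6

open Pool.Agent.LibMX34

/-- the variables `Y_1, Y_2, Y_3` of the ring `P = k[Y_1, Y_2, Y_3, u]` -/
noncomputable def yQ (k : Type) [Field k] (r : ℕ) : Fin 3 → MvPolynomial (Fin (r + 3)) k :=
  fun j => MvPolynomial.X (Fin.castLE (by omega) j)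

theorem f3 {r : ℕ} {p : Fin (r + 3) → Prop} (h0 : p 0) (h1 : p 1) (h2 : p 2) (h : ∀ a : Fin r, p a.succ.succ.succ)
    (i : Fin (r + 3)) : p i := by
  refine Fin.cases h0 (fun i => ?_) i
  refine Fin.cases h1 (fun i => ?_) i
  refine Fin.cases h2 (fun i => ?_) i
  exact h i

theorem f4 {r : ℕ} {p : Fin (r + 4) → Prop} (h0 : p 0) (h1 : p 1) (h2 : p 2) (h3 : p 3) (h : ∀ a : Fin r, p a.succ.succ.succ.succ)
    (i : Fin (r + 4)) : p i := by
  refine Fin.cases h0 (fun i => ?_) i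
  refine Fin.cases h1 (fun i => ?_) i
  refine Fin.cases h2 (fun i => ?_) i
  refine Fin.cases h3 (fun i => ?_) i
  exact h i

section

variable (k : Type) [Field k] {r : ℕ} (T : Fin 9 → Fin r → ℤ)

/-- `x ↦ X, y ↦ Y, z ↦ Z, u ↦ u` -/
noncomputable def vQ : Fin (r + 3) → Matrix (Fin 8) (Fin 8) (MvPolynomial (Fin (r + 3)) k) :=
  Fin.cons (MX (lvP k T) (yQ k r)) (Fin.cons (MY (lvP k T) (yQ k r)) (Fin.cons (MZ (lvP k T) (yQ k r))
    fun a : Fin r => (MvPolynomial.X a.succ.succ.succ : MvPolynomial (Fin (r + 3)) k) • (1 : Matrix (Fin 8) (Fin 8) _)))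

theorem vQ_comm (i j : Fin (r + 3)) : Commute (vQ k T i) (vQ k T j) := by
  have hXY : Commute (vQ k T 0) (vQ k T 1) := cXY _ _
  have hXZ : Commute (vQ k T 0) (vQ k T 2) := cXZ _ _
  have hYZ : Commute (vQ k T 1) (vQ k T 2) := cYZ _ _
  have hu : ∀ (a : Fin r) (N : Matrix (Fin 8) (Fin 8) (MvPolynomial (Fin (r + 3)) k)), Commute (vQ k T a.succ.succ.succ) N :=
    fun a N => (Commute.one_left N).smul_left _
  revert i j
  refine f3 ?_ ?_ ?_ ?_
  · exact f3 (Commute.refl _) hXY hXZ fun a => (hu a _).symm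
  · exact f3 hXY.symm (Commute.refl _) hYZ fun a => (hu a _).symm
  · exact f3 hXZ.symm hYZ.symm (Commute.refl _) fun a => (hu a _).symm
  · exact fun a j => hu a _

theorem exists_rQ : ∃ ρ : MvPolynomial (Fin (r + 3)) k →ₐ[k] Matrix (Fin 8) (Fin 8) (MvPolynomial (Fin (r + 3)) k),
      ∀ i, ρ (MvPolynomial.X i) = vQ k T i :=
  exists_hom (vQ k T) fun i j => vQ_comm k T i j

end

section phi

variable (k : Type) [Field k] (r : ℕ)

/-- the isomorphism `k[Y_1, .., Y_4, u] = P[Y_4]` -/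
noncomputable def ph : MvPolynomial (Fin (r + 4)) k ≃ₐ[k] Polynomial (MvPolynomial (Fin (r + 3)) k) :=
  (MvPolynomial.renameEquiv k (finSuccEquiv' (3 : Fin (r + 4)))).trans (MvPolynomial.optionEquivLeft k (Fin (r + 3)))

theorem ph_X3 : ph k r (MvPolynomial.X 3) = Polynomial.X := by
  rw [ph, AlgEquiv.trans_apply, MvPolynomial.renameEquiv_apply, MvPolynomial.rename_X, finSuccEquiv'_at,
    MvPolynomial.optionEquivLeft_X_none]

theorem ph_Xs (j : Fin (r + 3)) : ph k r (MvPolynomial.X ((3 : Fin (r + 4)).succAbove j)) = Polynomial.C (MvPolynomial.X j) := by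
  rw [ph, AlgEquiv.trans_apply, MvPolynomial.renameEquiv_apply, MvPolynomial.rename_X, finSuccEquiv'_succAbove,
    MvPolynomial.optionEquivLeft_X_some]

theorem sj (j : Fin 3) : (3 : Fin (r + 4)).succAbove (Fin.castLE (by omega) j : Fin (r + 3)) = Fin.castLE (by omega) j := by
  rw [Fin.succAbove_of_castSucc_lt _ _ (by rw [Fin.lt_def, w3]; exact j.2)]
  rfl

theorem sa (a : Fin r) : (3 : Fin (r + 4)).succAbove a.succ.succ.succ = a.succ.succ.succ.succ := by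
  rw [Fin.succAbove_of_le_castSucc _ _ (by rw [Fin.le_def, w3, Fin.val_castSucc]; simp)]

theorem ph_Xj (j : Fin 3) : ph k r (MvPolynomial.X (Fin.castLE (by omega) j : Fin (r + 4))) = Polynomial.C (yQ k r j) := by
  rw [yQ, ← ph_Xs, sj]

theorem ph_Xa (a : Fin r) :
    ph k r (MvPolynomial.X a.succ.succ.succ.succ) = Polynomial.C (MvPolynomial.X a.succ.succ.succ) := by
  rw [← ph_Xs, sa]

end phi

section

variable (k : Type) [Field k] {r : ℕ} (T : Fin 9 → Fin r → ℤ)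

theorem ph_lvQ (t : Fin 9) : ph k r (lvQ k T t) = Polynomial.C (lvP k T t) := by
  rw [lvQ, lvP, map_sum, map_sum]
  refine Finset.sum_congr rfl fun a _ => ?_
  rw [map_mul, map_mul, map_intCast, map_intCast, ph_Xa]

/-- the matrix of `Y_4` over `P` -/
noncomputable def MQ : Matrix (Fin 8) (Fin 8) (MvPolynomial (Fin (r + 3)) k) := M4 (lvP k T) (yQ k r)

/-- the Krylov matrix: rows `e_0 M^i` -/
noncomputable def kQ : Matrix (Fin 8) (Fin 8) (MvPolynomial (Fin (r + 3)) k) := Matrix.of fun i j => (MQ k T ^ (i : ℕ)) 0 j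

theorem ph_gQ : ph k r (gQ k T) = (MQ k T).charpoly := by
  have h1 : ph k r (gQ k T) = ((ph k r : MvPolynomial (Fin (r + 4)) k ≃ₐ[k] _).toAlgHom : MvPolynomial (Fin (r + 4)) k →ₐ[k] _).toRingHom (gQ k T) := rfl
  have h2 : ∀ z, ((ph k r : MvPolynomial (Fin (r + 4)) k ≃ₐ[k] _).toAlgHom : MvPolynomial (Fin (r + 4)) k →ₐ[k] _).toRingHom z = ph k r z :=
    fun z => rfl
  rw [h1, gQ, map_GR, GR, Matrix.charpoly, Matrix.charmatrix]
  have hM := map_M4 (Polynomial.C : MvPolynomial (Fin (r + 3)) k →+* _) (lvP k T) (yQ k r)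
  congr 2
  · congr 1
    exact ph_X3 k r
  · rw [MQ]
    refine Eq.trans ?_ hM.symm
    congr 1
    · funext t
      exact ph_lvQ k T t
    · funext j
      exact ph_Xj k r j

section

variable (ρ : MvPolynomial (Fin (r + 3)) k →ₐ[k] Matrix (Fin 8) (Fin 8) (MvPolynomial (Fin (r + 3)) k))
    (hρ : ∀ i, ρ (MvPolynomial.X i) = vQ k T i)

include hρ

theorem rho_l (t : Fin 9) : ρ (lvP k T t) = lvP k T t • (1 : Matrix (Fin 8) (Fin 8) _) := by
  have ha : ∀ a : Fin r, ρ (MvPolynomial.X a.succ.succ.succ) =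
    (MvPolynomial.X a.succ.succ.succ : MvPolynomial (Fin (r + 3)) k) • (1 : Matrix (Fin 8) (Fin 8) _) := fun a => hρ _
  rw [lvP, map_sum, Finset.sum_smul]
  refine Finset.sum_congr rfl fun a _ => ?_
  have hC : ρ (T t a : MvPolynomial (Fin (r + 3)) k) = (T t a : MvPolynomial (Fin (r + 3)) k) • (1 : Matrix (Fin 8) (Fin 8) _) := by
    rw [map_intCast]
    ext p q
    rw [Matrix.smul_apply, smul_eq_mul, Matrix.one_apply, Matrix.intCast_apply]
    split_ifs <;> simp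
  rw [map_mul, hC, ha, smul_mul_smul_comm, one_mul]

theorem rho_0 : ρ (qd (lvP k T) (MvPolynomial.X 0) (MvPolynomial.X 1) (MvPolynomial.X 2) 0) =
    yQ k r 0 • (1 : Matrix (Fin 8) (Fin 8) _) := by
  have h0 : ρ (MvPolynomial.X 0) = MX (lvP k T) (yQ k r) := hρ 0
  have h1 : ρ (MvPolynomial.X 1) = MY (lvP k T) (yQ k r) := hρ 1
  have h2 : ρ (MvPolynomial.X 2) = MZ (lvP k T) (yQ k r) := hρ 2
  have e : qd (lvP k T) (MvPolynomial.X 0) (MvPolynomial.X 1) (MvPolynomial.X 2) 0 =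
    MvPolynomial.X 0 ^ 2 + lvP k T 0 * MvPolynomial.X 1 + lvP k T 1 * MvPolynomial.X 2 := rfl
  rw [e, map_add, map_add, map_mul, map_mul, map_pow, rho_l k T ρ hρ, rho_l k T ρ hρ, h0, h1, h2, sq]
  rw [smul_mul_assoc, smul_mul_assoc, one_mul, one_mul]
  exact relX (lvP k T) (yQ k r)

theorem rho_1 : ρ (qd (lvP k T) (MvPolynomial.X 0) (MvPolynomial.X 1) (MvPolynomial.X 2) 1) =
    yQ k r 1 • (1 : Matrix (Fin 8) (Fin 8) _) := by
  have h0 : ρ (MvPolynomial.X 0) = MX (lvP k T) (yQ k r) := hρ 0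
  have h1 : ρ (MvPolynomial.X 1) = MY (lvP k T) (yQ k r) := hρ 1
  have h2 : ρ (MvPolynomial.X 2) = MZ (lvP k T) (yQ k r) := hρ 2
  have e : qd (lvP k T) (MvPolynomial.X 0) (MvPolynomial.X 1) (MvPolynomial.X 2) 1 =
    MvPolynomial.X 1 ^ 2 + MvPolynomial.X 0 * MvPolynomial.X 2 + lvP k T 2 * MvPolynomial.X 0 + lvP k T 3 * MvPolynomial.X 2 := rfl
  rw [e, map_add, map_add, map_add, map_mul, map_mul, map_mul, map_pow, rho_l k T ρ hρ, rho_l k T ρ hρ, h0, h1, h2, sq]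
  rw [smul_mul_assoc, smul_mul_assoc, one_mul, one_mul]
  exact relY (lvP k T) (yQ k r)

theorem rho_2 : ρ (qd (lvP k T) (MvPolynomial.X 0) (MvPolynomial.X 1) (MvPolynomial.X 2) 2) =
    yQ k r 2 • (1 : Matrix (Fin 8) (Fin 8) _) := by
  have h0 : ρ (MvPolynomial.X 0) = MX (lvP k T) (yQ k r) := hρ 0
  have h1 : ρ (MvPolynomial.X 1) = MY (lvP k T) (yQ k r) := hρ 1
  have h2 : ρ (MvPolynomial.X 2) = MZ (lvP k T) (yQ k r) := hρ 2
  have e : qd (lvP k T) (MvPolynomial.X 0) (MvPolynomial.X 1) (MvPolynomial.X 2) 2 =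
    MvPolynomial.X 2 ^ 2 + MvPolynomial.X 0 * MvPolynomial.X 1 + lvP k T 4 * MvPolynomial.X 0 + lvP k T 5 * MvPolynomial.X 1 := rfl
  rw [e, map_add, map_add, map_add, map_mul, map_mul, map_mul, map_pow, rho_l k T ρ hρ, rho_l k T ρ hρ, h0, h1, h2, sq]
  rw [smul_mul_assoc, smul_mul_assoc, one_mul, one_mul]
  exact relZ (lvP k T) (yQ k r)

theorem rho_3 : ρ (qd (lvP k T) (MvPolynomial.X 0) (MvPolynomial.X 1) (MvPolynomial.X 2) 3) = MQ k T := by
  have h0 : ρ (MvPolynomial.X 0) = MX (lvP k T) (yQ k r) := hρ 0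
  have h1 : ρ (MvPolynomial.X 1) = MY (lvP k T) (yQ k r) := hρ 1
  have h2 : ρ (MvPolynomial.X 2) = MZ (lvP k T) (yQ k r) := hρ 2
  have e : qd (lvP k T) (MvPolynomial.X 0) (MvPolynomial.X 1) (MvPolynomial.X 2) 3 =
    MvPolynomial.X 1 * MvPolynomial.X 2 + lvP k T 6 * MvPolynomial.X 0 + lvP k T 7 * MvPolynomial.X 1 + lvP k T 8 * MvPolynomial.X 2 := rfl
  rw [e, map_add, map_add, map_add, map_mul, map_mul, map_mul, map_mul, rho_l k T ρ hρ, rho_l k T ρ hρ, rho_l k T ρ hρ, h0, h1, h2]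
  rw [smul_mul_assoc, smul_mul_assoc, smul_mul_assoc, one_mul, one_mul, one_mul]
  rfl

end

theorem aev_C (q : MvPolynomial (Fin (r + 3)) k) : Polynomial.aeval (MQ k T) (Polynomial.C q) = q • (1 : Matrix (Fin 8) (Fin 8) _) := by
  rw [Polynomial.aeval_C, Algebra.algebraMap_eq_smul_one]

theorem rho_fQ (ρ : MvPolynomial (Fin (r + 3)) k →ₐ[k] Matrix (Fin 8) (Fin 8) (MvPolynomial (Fin (r + 3)) k))
    (hρ : ∀ i, ρ (MvPolynomial.X i) = vQ k T i) (j : Fin (r + 4)) :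
    ρ (fQ k T j) = Polynomial.aeval (MQ k T) (ph k r (MvPolynomial.X j)) := by
  revert j
  refine f4 ?_ ?_ ?_ ?_ ?_
  · have e : ph k r (MvPolynomial.X 0) = Polynomial.C (yQ k r 0) := ph_Xj k r 0
    rw [e, aev_C]
    exact rho_0 k T ρ hρ
  · have e : ph k r (MvPolynomial.X 1) = Polynomial.C (yQ k r 1) := ph_Xj k r 1
    rw [e, aev_C]
    exact rho_1 k T ρ hρ
  · have e0 : (2 : Fin (r + 4)) = Fin.castLE (by omega) (2 : Fin 3) := by
      rw [Fin.ext_iff, w2]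
      rfl
    have e : ph k r (MvPolynomial.X 2) = Polynomial.C (yQ k r 2) := by
      rw [e0]
      exact ph_Xj k r 2
    rw [e, aev_C]
    exact rho_2 k T ρ hρ
  · rw [ph_X3, Polynomial.aeval_X]
    exact rho_3 k T ρ hρ
  · intro a
    rw [ph_Xa, aev_C]
    exact hρ a.succ.succ.succ

theorem ker_pol (hK : (kQ k T).det ≠ 0) (h : MvPolynomial (Fin (r + 4)) k) (hh : MvPolynomial.aeval (fQ k T) h = 0) : gQ k T ∣ h := by
  obtain ⟨ρ, hρ⟩ := exists_rQ k T
  have h1 : (ρ.comp (MvPolynomial.aeval (fQ k T)) : MvPolynomial (Fin (r + 4)) k →ₐ[k] _) =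
      ((Polynomial.aeval (MQ k T)).restrictScalars k).comp (ph k r).toAlgHom := by
    refine MvPolynomial.algHom_ext fun j => ?_
    rw [AlgHom.comp_apply, MvPolynomial.aeval_X]
    exact rho_fQ k T ρ hρ j
  have h2 : Polynomial.aeval (MQ k T) (ph k r h) = 0 := by
    have h3 := DFunLike.congr_fun h1 h
    rw [AlgHom.comp_apply, hh, map_zero] at h3
    exact h3.symm
  have h4 := krylov (MQ k T) hK (ph k r h) h2
  rw [← ph_gQ] at h4
  obtain ⟨q, hq⟩ := h4
  refine ⟨(ph k r).symm q, ?_⟩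
  apply (ph k r).injective
  rw [map_mul, AlgEquiv.apply_symm_apply, hq]

end

end Pool.Agent.LibMG6
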