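import Pool.Agent.LibMG6.C8

set_option autoImplicit false

/-! MP_ed98ad_ag, block H (helper6): the kernel of the power series map (graded argument). -/

namespace Pool.Agent.LibMG6

open Pool.Agent.LibMX34

theorem wtT_ne {r : ℕ} (j : Fin (r + 4)) : wtT j ≠ 0 := by
  revert j
  refine f4 ?_ ?_ ?_ ?_ ?_
  · exact two_ne_zero
  · exact two_ne_zero
  · exact two_ne_zero
  · exact two_ne_zero
  · exact fun a => one_ne_zero

variable (k : Type) [Field k] {r : ℕ} (T : Fin 9 → Fin r → ℤ) (σ : Fin 9 → ℤ)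

/-- the weighted homogeneous component of degree `d` as a polynomial -/
noncomputable def cmp (d : ℕ) (h : MvPowerSeries (Fin (r + 4)) k) : MvPolynomial (Fin (r + 4)) k :=
  ∑ e ∈ (Finsupp.finite_of_nat_weight_le (wtT : Fin (r + 4) → ℕ) wtT_ne d).toFinset.filter fun e => Finsupp.weight wtT e = d,
    MvPolynomial.monomial e (MvPowerSeries.coeff e h)

theorem co_cmp (d : ℕ) (h : MvPowerSeries (Fin (r + 4)) k) (e : Fin (r + 4) →₀ ℕ) :
    MvPolynomial.coeff e (cmp k d h) = if Finsupp.weight wtT e = d then MvPowerSeries.coeff e h else 0 := by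
  classical
  rw [cmp, MvPolynomial.coeff_sum]
  simp only [MvPolynomial.coeff_monomial]
  rw [Finset.sum_ite_eq']
  by_cases he : Finsupp.weight wtT e = d
  · rw [if_pos he, if_pos]
    rw [Finset.mem_filter, Set.Finite.mem_toFinset]
    exact ⟨le_of_eq he, he⟩
  · rw [if_neg he, if_neg]
    rw [Finset.mem_filter]
    exact fun h' => he h'.2

theorem hom_lvP (t : Fin 9) : (lvP k T t).IsHomogeneous 1 := by
  rw [lvP]
  refine MvPolynomial.IsHomogeneous.sum _ _ _ fun a _ => ?_
  have : (T t a : MvPolynomial (Fin (r + 3)) k) = MvPolynomial.C (T t a : k) := by rw [map_intCast]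
  rw [this]
  exact MvPolynomial.isHomogeneous_C_mul_X _ _

theorem hom_fQ (j : Fin (r + 4)) : (fQ k T j).IsHomogeneous (wtT j) := by
  have hX : ∀ i : Fin (r + 3), (MvPolynomial.X i : MvPolynomial (Fin (r + 3)) k).IsHomogeneous 1 := fun i => MvPolynomial.isHomogeneous_X k i
  have hm : ∀ a b : MvPolynomial (Fin (r + 3)) k, a.IsHomogeneous 1 → b.IsHomogeneous 1 → (a * b).IsHomogeneous 2 := by
    intro a b ha hb
    exact ha.mul hb
  have hl := hom_lvP k T
  revert j
  refine f4 ?_ ?_ ?_ ?_ ?_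
  · change (MvPolynomial.X 0 ^ 2 + lvP k T 0 * MvPolynomial.X 1 + lvP k T 1 * MvPolynomial.X 2 : MvPolynomial (Fin (r + 3)) k).IsHomogeneous 2
    rw [sq]
    exact ((hm _ _ (hX 0) (hX 0)).add (hm _ _ (hl 0) (hX 1))).add (hm _ _ (hl 1) (hX 2))
  · change (MvPolynomial.X 1 ^ 2 + MvPolynomial.X 0 * MvPolynomial.X 2 + lvP k T 2 * MvPolynomial.X 0 + lvP k T 3 * MvPolynomial.X 2 :
      MvPolynomial (Fin (r + 3)) k).IsHomogeneous 2
    rw [sq]
    exact (((hm _ _ (hX 1) (hX 1)).add (hm _ _ (hX 0) (hX 2))).add (hm _ _ (hl 2) (hX 0))).add (hm _ _ (hl 3) (hX 2))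
  · change (MvPolynomial.X 2 ^ 2 + MvPolynomial.X 0 * MvPolynomial.X 1 + lvP k T 4 * MvPolynomial.X 0 + lvP k T 5 * MvPolynomial.X 1 :
      MvPolynomial (Fin (r + 3)) k).IsHomogeneous 2
    rw [sq]
    exact (((hm _ _ (hX 2) (hX 2)).add (hm _ _ (hX 0) (hX 1))).add (hm _ _ (hl 4) (hX 0))).add (hm _ _ (hl 5) (hX 1))
  · change (MvPolynomial.X 1 * MvPolynomial.X 2 + lvP k T 6 * MvPolynomial.X 0 + lvP k T 7 * MvPolynomial.X 1 + lvP k T 8 * MvPolynomial.X 2 :
      MvPolynomial (Fin (r + 3)) k).IsHomogeneous 2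
    exact (((hm _ _ (hX 1) (hX 2)).add (hm _ _ (hl 6) (hX 0))).add (hm _ _ (hl 7) (hX 1))).add (hm _ _ (hl 8) (hX 2))
  · exact fun a => hX _

theorem hom_prod (m : Fin (r + 4) →₀ ℕ) : (m.prod fun s n => fQ k T s ^ n).IsHomogeneous (Finsupp.weight wtT m) := by
  rw [Finsupp.weight_apply, Finsupp.prod, Finsupp.sum]
  refine MvPolynomial.IsHomogeneous.prod _ _ _ fun i _ => ?_
  rw [smul_eq_mul, mul_comm]
  exact (hom_fQ k T i).pow (m i)

theorem const_pc (j : Fin (r + 4)) : MvPowerSeries.constantCoeff (pc k _ (fQ k T j)) = 0 := by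
  have h := (hom_fQ k T j).coeff_eq_zero (d := 0) (by
    intro h
    rw [map_zero] at h
    exact wtT_ne j h.symm)
  rw [← MvPowerSeries.coeff_zero_eq_constantCoeff_apply]
  exact (MvPolynomial.coeff_coe _ _).trans h

theorem pc_aeval {ι τ : Type} (F : ι → MvPolynomial τ k) (p : MvPolynomial ι k) :
    pc k _ (MvPolynomial.aeval F p) = MvPolynomial.aeval (fun j => pc k _ (F j)) p := by
  induction p using MvPolynomial.induction_on with
  | C a =>
    rw [MvPolynomial.aeval_C, MvPolynomial.aeval_C, MvPolynomial.algebraMap_eq]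
    exact MvPolynomial.coe_C a
  | add p q hp hq => rw [map_add, map_add, map_add, hp, hq]
  | mul_X p i hp => rw [map_mul, map_mul, map_mul, hp, MvPolynomial.aeval_X, MvPolynomial.aeval_X]

theorem co_prod (m : Fin (r + 4) →₀ ℕ) (e : Fin (r + 3) →₀ ℕ) (he : e.degree ≠ Finsupp.weight wtT m) :
    MvPowerSeries.coeff e (m.prod fun s n => (pc k _ (fQ k T s)) ^ n) = 0 := by
  have h1 : (m.prod fun s n => (pc k _ (fQ k T s)) ^ n) = pc k _ (m.prod fun s n => fQ k T s ^ n) := by
    rw [Finsupp.prod, Finsupp.prod, map_prod]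
    refine Finset.prod_congr rfl fun s _ => ?_
    rw [map_pow]
  rw [h1]
  exact (MvPolynomial.coeff_coe _ _).trans ((hom_prod k T m).coeff_eq_zero he)

theorem aev_cmp (h : MvPowerSeries (Fin (r + 4)) k) (hh : MvPowerSeries.subst (fun j => pc k _ (fQ k T j)) h = 0) (d : ℕ) :
    MvPolynomial.aeval (fQ k T) (cmp k d h) = 0 := by
  have hs : MvPowerSeries.HasSubst (fun j => pc k _ (fQ k T j)) := MvPowerSeries.hasSubst_of_constantCoeff_zero (const_pc k T)
  have e1 : pc k _ (MvPolynomial.aeval (fQ k T) (cmp k d h)) = MvPowerSeries.subst (fun j => pc k _ (fQ k T j)) (pc k _ (cmp k d h)) := by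
    rw [pc_aeval]
    exact (MvPowerSeries.subst_coe _).symm
  ext e
  rw [MvPolynomial.coeff_zero]
  have e2 : MvPolynomial.coeff e (MvPolynomial.aeval (fQ k T) (cmp k d h)) =
      MvPowerSeries.coeff e (pc k _ (MvPolynomial.aeval (fQ k T) (cmp k d h))) := (MvPolynomial.coeff_coe _ _).symm
  have e3 : ∀ m, MvPowerSeries.coeff m (pc k _ (cmp k d h)) = MvPolynomial.coeff m (cmp k d h) := fun m => MvPolynomial.coeff_coe _ _
  rw [e2, e1, MvPowerSeries.coeff_subst hs]
  by_cases hd : e.degree = d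
  · have h0 := congrArg (MvPowerSeries.coeff e) hh
    rw [MvPowerSeries.coeff_subst hs, map_zero] at h0
    rw [← h0]
    refine finsum_congr fun m => ?_
    by_cases hm : Finsupp.weight wtT m = d
    · rw [e3, co_cmp, if_pos hm]
    · rw [co_prod k T m e (by rw [hd]; exact fun h' => hm h'.symm), smul_zero, smul_zero]
  · have h0 : ∀ m, MvPowerSeries.coeff m (pc k _ (cmp k d h)) •
        MvPowerSeries.coeff e (m.prod fun s n => (pc k _ (fQ k T s)) ^ n) = 0 := by
      intro m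
      by_cases hm : Finsupp.weight wtT m = d
      · rw [co_prod k T m e (by rw [hm]; exact hd), smul_zero]
      · rw [e3, co_cmp, if_neg hm, zero_smul]
    rw [finsum_congr h0, finsum_zero]

theorem ker0_S [CharZero k] (hK : (kQ k T).det ≠ 0) (h : MvPowerSeries (Fin (r + 4)) k)
    (hh : MvPowerSeries.subst (unf k fun j => atZero k (PhiS k T σ j)) h = 0) : atZero k (GS k T σ) ∣ h := by
  classical
  rw [unf_az] at hh
  have hq : ∀ d, ∃ q, cmp k d h = gQ k T * q := fun d => ker_pol k T hK _ (aev_cmp k T h hh d)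
  choose q hq using hq
  have hg : ∀ e : Fin (r + 4) →₀ ℕ, MvPolynomial.coeff e (gQ k T) ≠ 0 → Finsupp.weight wtT e = 16 := by
    intro e he
    refine wt_g k T σ e ?_
    rw [az_GS]
    intro h'
    exact he ((MvPolynomial.coeff_coe _ _).symm.trans h')
  refine ⟨fun e => MvPolynomial.coeff e (q (Finsupp.weight wtT e + 16)), ?_⟩
  rw [az_GS]
  ext e
  have h1 : MvPowerSeries.coeff e h = MvPolynomial.coeff e (cmp k (Finsupp.weight wtT e) h) := by
    rw [co_cmp, if_pos rfl]
  rw [h1, hq, MvPolynomial.coeff_mul, MvPowerSeries.coeff_mul]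
  refine Finset.sum_congr rfl fun x hx => ?_
  rw [Finset.HasAntidiagonal.mem_antidiagonal] at hx
  have h2 : MvPowerSeries.coeff x.1 (pc k _ (gQ k T)) = MvPolynomial.coeff x.1 (gQ k T) :=
    MvPolynomial.coeff_coe (gQ k T) x.1
  have h3 : MvPowerSeries.coeff x.2 (fun e => MvPolynomial.coeff e (q (Finsupp.weight wtT e + 16)) : MvPowerSeries (Fin (r + 4)) k) =
    MvPolynomial.coeff x.2 (q (Finsupp.weight wtT x.2 + 16)) := rfl
  rw [h2, h3]
  by_cases hx1 : MvPolynomial.coeff x.1 (gQ k T) = 0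
  · rw [hx1, zero_mul, zero_mul]
  · have h4 := hg _ hx1
    have h5 : Finsupp.weight wtT e = Finsupp.weight wtT x.2 + 16 := by
      rw [← hx, map_add, h4, add_comm]
    rw [h5]

end Pool.Agent.LibMG6
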